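import Pool.Agent.U126.NC.Win

/-! # Mean number of related pairs, weighted with the lag -/

set_option autoImplicit false

namespace Pool.Agent.U126.NC

open scoped Classical
open Pool.Agent.W840.CT hiding tail_all
open Pool.Agent.TH546.SAW hiding avg avg2 entropy variational transfer window_mean max_mean
  loop_mean far_mean CP LL LL_le TM TM_le_TT TM_le_window sum_TM_le FF_step FF_scales exp_moment
open Pool.Agent.TH546.SG (CU log_ge one_le_LP LP_nonneg cP one_le_cP log_mul_pow_le'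
  log_ratio_pow avg2 sP summable_sP sum_le_sP sP_nonneg)

/-- the maximal number of related pairs across a time has mean at most `K G log^p n` -/
theorem max_mean {p : ℕ} (hp : 1 ≤ p) (hcu : CU p) : ∃ K : ℝ, 0 ≤ K ∧
    ∀ R : Pt → Pt → Prop, ∀ G : ℕ, 1 ≤ G → Tail R G → ∀ n : ℕ, 2 ≤ n →
    ∃ J : (Fin (n + 1) → ℤ × ℤ) → ℝ, (∀ ω t, (TR R n t ω : ℝ) ≤ J ω) ∧
    ∑ ω ∈ W n, J ω ≤ cn n * (K * G * Real.log n ^ p) := by
  obtain ⟨K, hK, h⟩ := tail_all hp hcu
  refine ⟨K + (3 * K + 3) * (3 / 2) ^ p, by positivity, fun R G hG hT n hn => ?_⟩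
  have hG' : (1 : ℝ) ≤ G := by exact_mod_cast hG
  have h1 := log_ge hn
  have hone1 := one_le_LP p hn
  have hn' : (2 : ℝ) ≤ n := by exact_mod_cast hn
  set L := Real.log n with hL
  set E : ℝ := (3 / 2) ^ p with hE
  have hLL : L ≤ E * L ^ p := by
    rw [hE, ← mul_pow]
    have h1 : (1 : ℝ) ≤ 3 / 2 * L := by linarith
    calc L ≤ 3 / 2 * L := by linarith
      _ = (3 / 2 * L) ^ 1 := (pow_one _).symm
      _ ≤ (3 / 2 * L) ^ p := pow_le_pow_right₀ h1 hp
  set B := K * G * (L ^ p + 3 * L) with hB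
  have hB0 : 0 ≤ B := by positivity
  refine ⟨fun ω => if (∃ t, B < TR R n t ω) then ((n : ℝ) + 1) * (n + 1) else B, ?_, ?_⟩
  · intro ω t
    show (TR R n t ω : ℝ) ≤ if (∃ t, B < TR R n t ω) then ((n : ℝ) + 1) * (n + 1) else B
    split_ifs with h3
    · exact_mod_cast TR_le_sq n t ω
    · push Not at h3
      exact h3 t
  · have h3 := h R G hG hT n hn (3 * L) (by positivity)
    rw [← card_filter_W] at h3
    calc ∑ ω ∈ W n, (if (∃ t, B < TR R n t ω) then ((n : ℝ) + 1) * (n + 1) else B)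
        ≤ ∑ ω ∈ W n, ((if (∃ t, B < TR R n t ω) then ((n : ℝ) + 1) * (n + 1) else 0) + B) := by
          refine Finset.sum_le_sum (fun ω _ => ?_)
          split_ifs
          · linarith
          · linarith
      _ = (((W n).filter (fun ω => ∃ t, B < TR R n t ω)).card : ℝ) * (((n : ℝ) + 1) * (n + 1)) +
          cn n * B := by
          rw [Finset.sum_add_distrib, ← Finset.sum_filter]
          simp only [Finset.sum_const, nsmul_eq_mul]
          rw [card_W]
      _ ≤ (Real.exp (-(3 * L)) * cn n) * (((n : ℝ) + 1) * (n + 1)) + cn n * B := by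
          gcongr
      _ = cn n * (Real.exp (-(3 * L)) * (((n : ℝ) + 1) * (n + 1)) + B) := by ring
      _ ≤ cn n * ((K + (3 * K + 3) * E) * G * L ^ p) := by
          refine mul_le_mul_of_nonneg_left ?_ (Nat.cast_nonneg _)
          have h4 : Real.exp (-(3 * L)) * (((n : ℝ) + 1) * (n + 1)) ≤ 3 := by
            have h5 : Real.exp (3 * L) = (n : ℝ) ^ 3 := by
              rw [show 3 * L = L + L + L by ring, Real.exp_add, Real.exp_add, hL,
                Real.exp_log (by linarith)]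
              ring
            rw [Real.exp_neg, h5, inv_mul_le_iff₀ (by positivity)]
            have h6 : ((n : ℝ) + 1) * (n + 1) ≤ 3 * (n : ℝ) ^ 2 := by nlinarith
            have h7 : (n : ℝ) ^ 2 * 1 ≤ (n : ℝ) ^ 2 * n :=
              mul_le_mul_of_nonneg_left (by linarith) (by positivity)
            have h8 : (n : ℝ) ^ 3 = (n : ℝ) ^ 2 * n := by ring
            linarith
          have h6 : K * G * L ≤ K * G * (E * L ^ p) :=
            mul_le_mul_of_nonneg_left hLL (by positivity)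
          have h7 : (K + (3 * K + 3) * E) * G * L ^ p = K * G * L ^ p +
            3 * (K * G * (E * L ^ p)) + 3 * (G * (E * L ^ p)) := by ring
          have h8 : 1 * 1 ≤ (G : ℝ) * (E * L ^ p) :=
            mul_le_mul hG' hone1 (by norm_num) (by linarith)
          rw [hB, h7]
          linarith

/-- the mean total lag of the related pairs with lag at most `M` -/
theorem loop_mean {p : ℕ} (hp : 1 ≤ p) (hcu : CU p) : ∃ K : ℝ, 0 ≤ K ∧
    ∀ R : Pt → Pt → Prop, TI R → ∀ G : ℕ, 1 ≤ G → Tail R G → ∀ M n : ℕ, 2 ≤ M → 2 ≤ n →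
    ∑ ω ∈ W n, (LL R n M ω : ℝ) ≤ cn n * (K * G * n * Real.log M ^ p) := by
  obtain ⟨K, hK, hwin⟩ := window_mean hp hcu
  obtain ⟨K', hK', hmax⟩ := max_mean hp hcu
  have hcP := one_le_cP p
  refine ⟨2 * K + (4 * cP p + 2 * 2 ^ p) * K', by positivity,
    fun R hR G hG hT M n hM hn => ?_⟩
  obtain ⟨J, hJ, hJs⟩ := hmax R G hG hT n hn
  have hL1 := log_ge hM
  have hLP0 := LP_nonneg p M
  have h2p : (0 : ℝ) < 2 ^ p := by positivity
  have hM' : (2 : ℝ) ≤ M := by exact_mod_cast hM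
  have hLL : ∀ ω, (LL R n M ω : ℝ) ≤ 2 * ∑ t ∈ Finset.range n, (TM R n M t ω : ℝ) := by
    intro ω
    exact_mod_cast LL_le n M ω
  rcases Nat.lt_or_ge n (2 * M) with h | h
  · have h1 : ∀ ω ∈ W n, (LL R n M ω : ℝ) ≤ 2 * (n * J ω) := by
      intro ω _
      refine (hLL ω).trans (mul_le_mul_of_nonneg_left ?_ (by norm_num))
      have h2 := Finset.sum_le_sum (s := Finset.range n)
        (fun t _ => (Nat.cast_le.2 (TM_le_TR (R := R) n M t ω)).trans (hJ ω t))
      rwa [Finset.sum_const, Finset.card_range, nsmul_eq_mul] at h2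
    have hlog : Real.log n ^ p ≤ 2 ^ p * Real.log M ^ p := by
      have h3 : Real.log n ≤ 2 * Real.log M := by
        calc Real.log n ≤ Real.log (M * M) := by
              refine Real.log_le_log (by positivity) ?_
              have : (n : ℝ) ≤ 2 * M := by exact_mod_cast h.le
              nlinarith
          _ = 2 * Real.log M := by rw [Real.log_mul (by positivity) (by positivity)]; ring
      calc Real.log n ^ p ≤ (2 * Real.log M) ^ p :=
            pow_le_pow_left₀ (Real.log_natCast_nonneg _) h3 p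
        _ = _ := by rw [mul_pow]
    calc ∑ ω ∈ W n, (LL R n M ω : ℝ) ≤ ∑ ω ∈ W n, 2 * (n * J ω) := Finset.sum_le_sum h1
      _ = 2 * n * ∑ ω ∈ W n, J ω := by rw [Finset.mul_sum]; congr 1; ext ω; ring
      _ ≤ 2 * n * (cn n * (K' * G * Real.log n ^ p)) := by gcongr
      _ ≤ 2 * n * (cn n * (K' * G * (2 ^ p * Real.log M ^ p))) := by gcongr
      _ = (2 * 2 ^ p * K') * (cn n * (G * n * Real.log M ^ p)) := by ring
      _ ≤ (2 * K + (4 * cP p + 2 * 2 ^ p) * K') * (cn n * (G * n * Real.log M ^ p)) := by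
          refine mul_le_mul_of_nonneg_right ?_ (by positivity)
          have e1 : 0 ≤ cP p * K' := by positivity
          have e2 : 0 ≤ 2 ^ p * K' := by positivity
          linarith
      _ = _ := by ring
  · have hlog := log_ratio_pow hp (m := M) (n := n) hM (by omega)
    have h1 : ∀ ω ∈ W n, (LL R n M ω : ℝ) ≤
        2 * ∑ i ∈ Finset.range (n + 1 - 2 * M), (TR R (2 * M) M (pc i (2 * M) ω) : ℝ) +
          4 * M * J ω := by
      intro ω _
      have h2 := sum_TM_le hR (hJ ω) h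
      have h3 := hLL ω
      linarith
    calc ∑ ω ∈ W n, (LL R n M ω : ℝ)
        ≤ ∑ ω ∈ W n, (2 * ∑ i ∈ Finset.range (n + 1 - 2 * M),
          (TR R (2 * M) M (pc i (2 * M) ω) : ℝ) + 4 * M * J ω) := Finset.sum_le_sum h1
      _ = 2 * ∑ i ∈ Finset.range (n + 1 - 2 * M), ∑ ω ∈ W n,
          (TR R (2 * M) M (pc i (2 * M) ω) : ℝ) + 4 * M * ∑ ω ∈ W n, J ω := by
          rw [Finset.sum_add_distrib, ← Finset.mul_sum, ← Finset.mul_sum, Finset.sum_comm]
      _ ≤ 2 * (cn n * (K * G * n * Real.log M ^ p)) +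
          4 * M * (cn n * (K' * G * Real.log n ^ p)) := by
          have := hwin R G hG hT M n hM h
          gcongr
      _ = cn n * (2 * K * G * n * Real.log M ^ p + 4 * (K' * G) * (M * Real.log n ^ p)) := by
          ring
      _ ≤ cn n * (2 * K * G * n * Real.log M ^ p +
          4 * (K' * G) * (cP p * n * Real.log M ^ p)) := by
          gcongr
      _ = (2 * K + 4 * cP p * K') * (cn n * (G * n * Real.log M ^ p)) := by ring
      _ ≤ (2 * K + (4 * cP p + 2 * 2 ^ p) * K') * (cn n * (G * n * Real.log M ^ p)) := by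
          refine mul_le_mul_of_nonneg_right ?_ (by positivity)
          have e1 : 0 ≤ cP p * K' := by positivity
          have e2 : 0 ≤ 2 ^ p * K' := by positivity
          linarith
      _ = _ := by ring

/-- related pairs with lag in `(s, 2s]` -/
theorem FR_step (R : Pt → Pt → Prop) (n s : ℕ) (ω : Fin (n + 1) → ℤ × ℤ) :
    s * FR R n s ω ≤ LL R n (2 * s) ω + s * FR R n (2 * s) ω := by
  unfold FR
  set A := (Finset.univ : Finset (Fin (n + 1) × Fin (n + 1))).filter
      (fun q => q.1.1 + s < q.2.1 ∧ q.2.1 ≤ q.1.1 + 2 * s ∧ R (ω q.1) (ω q.2)) with hA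
  have hsub : (Finset.univ : Finset (Fin (n + 1) × Fin (n + 1))).filter
      (fun q => q.1.1 + s < q.2.1 ∧ R (ω q.1) (ω q.2)) ⊆
      A ∪ (Finset.univ : Finset (Fin (n + 1) × Fin (n + 1))).filter
      (fun q => q.1.1 + 2 * s < q.2.1 ∧ R (ω q.1) (ω q.2)) := by
    intro q hq
    simp only [hA, Finset.mem_union, Finset.mem_filter, Finset.mem_univ, true_and] at hq ⊢
    obtain ⟨h1, h2⟩ := hq
    by_cases h3 : q.1.1 + 2 * s < q.2.1
    · exact Or.inr ⟨h3, h2⟩
    · exact Or.inl ⟨h1, by omega, h2⟩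
  have h1 := (Finset.card_le_card hsub).trans (Finset.card_union_le _ _)
  have h2 : s * A.card ≤ LL R n (2 * s) ω := by
    unfold LL
    calc s * A.card = ∑ q ∈ A, s := by rw [Finset.sum_const, smul_eq_mul, mul_comm]
      _ ≤ ∑ q ∈ A, (q.2.1 - q.1.1) := by
          refine Finset.sum_le_sum (fun q hq => ?_)
          simp only [hA, Finset.mem_filter, Finset.mem_univ, true_and] at hq
          omega
      _ ≤ _ := by
          rcases Nat.eq_zero_or_pos s with h0 | h0
          · have : A = ∅ := by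
              rw [hA, Finset.filter_eq_empty_iff]
              rintro q - ⟨h3, h4, -⟩
              omega
            rw [this, Finset.sum_empty]
            exact Nat.zero_le _
          · refine Finset.sum_le_sum_of_subset ?_
            intro q hq
            simp only [hA, CP, Finset.mem_filter, Finset.mem_univ, true_and] at hq ⊢
            exact ⟨by omega, hq.2.1, hq.2.2⟩
  have h3 := Nat.mul_le_mul_left s h1
  rw [mul_add] at h3
  omega

theorem FR_scales (R : Pt → Pt → Prop) (n m : ℕ) (hm : 1 ≤ m) (ω : Fin (n + 1) → ℤ × ℤ)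
    (κ : ℕ) :
    (FR R n m ω : ℝ) ≤ ∑ k ∈ Finset.range κ, ((LL R n (2 ^ (k + 1) * m) ω : ℝ) / (2 ^ k * m)) +
      FR R n (2 ^ κ * m) ω := by
  induction κ with
  | zero => simp
  | succ κ ih =>
    rw [Finset.sum_range_succ]
    have h0 : (0 : ℝ) < 2 ^ κ * m := by
      have : (0 : ℝ) < m := by exact_mod_cast hm
      positivity
    have h1 := FR_step R n (2 ^ κ * m) ω
    have h2 : ((2 ^ κ * m : ℕ) : ℝ) * FR R n (2 ^ κ * m) ω ≤ LL R n (2 * (2 ^ κ * m)) ω +
        ((2 ^ κ * m : ℕ) : ℝ) * FR R n (2 * (2 ^ κ * m)) ω := by exact_mod_cast h1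
    have e1 : (((2 ^ κ * m : ℕ)) : ℝ) = 2 ^ κ * m := by push_cast; ring
    have e2 : 2 ^ (κ + 1) * m = 2 * (2 ^ κ * m) := by ring
    rw [e1] at h2
    rw [e2]
    have h3 : (FR R n (2 ^ κ * m) ω : ℝ) ≤ (LL R n (2 * (2 ^ κ * m)) ω : ℝ) / (2 ^ κ * m) +
        FR R n (2 * (2 ^ κ * m)) ω := by
      have h4 : (FR R n (2 ^ κ * m) ω : ℝ) - FR R n (2 * (2 ^ κ * m)) ω ≤
          (LL R n (2 * (2 ^ κ * m)) ω : ℝ) / (2 ^ κ * m) := by
        rw [le_div_iff₀ h0]
        linarith
      linarith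
    linarith

/-- related pairs with lag more than `m` from the related pairs across the multiples of `m` -/
theorem FR_le (R : Pt → Pt → Prop) (N m : ℕ) (hm : 1 ≤ m) (ω : Fin (N + 1) → ℤ × ℤ) {J : ℝ}
    (h : ∀ t, (TR R N t ω : ℝ) ≤ J) : (FR R N m ω : ℝ) ≤ N / m * J := by
  have hJ : 0 ≤ J := (Nat.cast_nonneg _).trans (h 0)
  have hsub : ((Finset.univ : Finset (Fin (N + 1) × Fin (N + 1))).filter
      (fun q => q.1.1 + m < q.2.1 ∧ R (ω q.1) (ω q.2))) ⊆
      (Finset.Icc 1 (N / m)).biUnion (fun k =>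
        (Finset.univ : Finset (Fin (N + 1) × Fin (N + 1))).filter
          (fun q => q.1.1 < k * m ∧ k * m < q.2.1 ∧ R (ω q.1) (ω q.2))) := by
    rintro ⟨i, j⟩ hq
    simp only [Finset.mem_filter, Finset.mem_univ, true_and] at hq
    rw [Finset.mem_biUnion]
    have h1 : i.1 < (i.1 / m + 1) * m := by
      rw [mul_comm]
      exact Nat.lt_mul_div_succ i.1 hm
    have h2 : (i.1 / m + 1) * m ≤ i.1 + m := by
      have := Nat.div_mul_le_self i.1 m
      rw [add_mul, one_mul]
      omega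
    have hj := j.2
    refine ⟨i.1 / m + 1, ?_, ?_⟩
    · rw [Finset.mem_Icc]
      refine ⟨Nat.succ_le_succ (Nat.zero_le _), ?_⟩
      rw [Nat.le_div_iff_mul_le hm]
      omega
    · simp only [Finset.mem_filter, Finset.mem_univ, true_and]
      exact ⟨h1, by omega, hq.2⟩
  have h1 : FR R N m ω ≤ ∑ k ∈ Finset.Icc 1 (N / m), TR R N (k * m) ω :=
    (Finset.card_le_card hsub).trans Finset.card_biUnion_le
  have h2 : (FR R N m ω : ℝ) ≤ ∑ k ∈ Finset.Icc 1 (N / m), (TR R N (k * m) ω : ℝ) := by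
    exact_mod_cast h1
  have h3 : ∑ k ∈ Finset.Icc 1 (N / m), (TR R N (k * m) ω : ℝ) ≤
      ∑ _k ∈ Finset.Icc 1 (N / m), J := Finset.sum_le_sum (fun k _ => h (k * m))
  rw [Finset.sum_const, Nat.card_Icc, nsmul_eq_mul] at h3
  have h4 : (((N / m + 1 - 1 : ℕ)) : ℝ) ≤ N / m := by
    rw [Nat.add_sub_cancel]
    exact Nat.cast_div_le
  exact h2.trans (h3.trans (mul_le_mul_of_nonneg_right h4 hJ))

/-- uniform bound for the number of related pairs with lag more than `m` -/
theorem far_mean {p : ℕ} (hp : 1 ≤ p) (hcu : CU p) : ∃ K : ℝ, 0 ≤ K ∧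
    ∀ R : Pt → Pt → Prop, TI R → ∀ G : ℕ, 1 ≤ G → Tail R G → ∀ m n : ℕ, 2 ≤ m → 2 ≤ n →
    ∑ ω ∈ W n, (FR R n m ω : ℝ) ≤ cn n * (K * G * (n / m) * Real.log m ^ p) := by
  obtain ⟨K, hK, hloop⟩ := loop_mean hp hcu
  have hsP := sP_nonneg p
  refine ⟨2 ^ p * sP p * K, by positivity, fun R hR G hG hT m n hm hn => ?_⟩
  have hL1 := log_ge hm
  have hLP0 := LP_nonneg p m
  have hm' : (2 : ℝ) ≤ m := by exact_mod_cast hm
  have hzero : ∀ ω, FR R n (2 ^ n * m) ω = 0 := by
    intro ω
    unfold FR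
    rw [Finset.card_eq_zero, Finset.filter_eq_empty_iff]
    rintro q - ⟨h1, -⟩
    have h2 := q.2.2
    have h3 := Nat.lt_two_pow_self (n := n)
    have h4 : 2 ^ n * 1 ≤ 2 ^ n * m := Nat.mul_le_mul_left _ (by omega)
    omega
  calc ∑ ω ∈ W n, (FR R n m ω : ℝ)
      ≤ ∑ ω ∈ W n, ∑ k ∈ Finset.range n, ((LL R n (2 ^ (k + 1) * m) ω : ℝ) / (2 ^ k * m)) := by
        refine Finset.sum_le_sum (fun ω _ => ?_)
        have h1 := FR_scales R n m (by omega) ω n
        rw [hzero, Nat.cast_zero, add_zero] at h1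
        exact h1
    _ = ∑ k ∈ Finset.range n, (∑ ω ∈ W n, (LL R n (2 ^ (k + 1) * m) ω : ℝ)) / (2 ^ k * m) := by
        rw [Finset.sum_comm]
        refine Finset.sum_congr rfl (fun k _ => ?_)
        rw [Finset.sum_div]
    _ ≤ ∑ k ∈ Finset.range n, cn n * (2 ^ p * K * G * (n / m) * Real.log m ^ p) *
          (((k : ℝ) + 1) ^ p / 2 ^ k) := by
        refine Finset.sum_le_sum (fun k _ => ?_)
        have hk1 : 1 ≤ 2 ^ (k + 1) := Nat.one_le_two_pow
        have h1 := hloop R hR G hG hT (2 ^ (k + 1) * m) n (by nlinarith) hn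
        have e1 : (((2 ^ (k + 1) * m : ℕ)) : ℝ) = 2 ^ (k + 1) * m := by push_cast; ring
        have h2 : Real.log (((2 ^ (k + 1) * m : ℕ)) : ℝ) ≤ 2 * (k + 1) * Real.log m := by
          rw [e1, Real.log_mul (by positivity) (by linarith), Real.log_pow]
          have h3 : Real.log 2 ≤ Real.log m := Real.log_le_log (by norm_num) hm'
          have h4 : ((k + 1 : ℕ) : ℝ) * Real.log 2 ≤ ((k + 1 : ℕ) : ℝ) * Real.log m :=
            mul_le_mul_of_nonneg_left h3 (Nat.cast_nonneg _)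
          push_cast at h4 ⊢
          nlinarith [mul_nonneg (Nat.cast_nonneg (α := ℝ) k) (by linarith : (0 : ℝ) ≤ Real.log m)]
        have h3 : Real.log (((2 ^ (k + 1) * m : ℕ)) : ℝ) ^ p ≤ (2 * (k + 1) * Real.log m) ^ p :=
          pow_le_pow_left₀ (Real.log_natCast_nonneg _) h2 p
        have h0 : (0 : ℝ) < 2 ^ k * m := by positivity
        rw [div_le_iff₀ h0]
        calc ∑ ω ∈ W n, (LL R n (2 ^ (k + 1) * m) ω : ℝ)
            ≤ cn n * (K * G * n * Real.log (((2 ^ (k + 1) * m : ℕ)) : ℝ) ^ p) := h1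
          _ ≤ cn n * (K * G * n * (2 * (k + 1) * Real.log m) ^ p) := by gcongr
          _ = _ := by
              rw [mul_pow, mul_pow]
              field_simp
    _ = cn n * (2 ^ p * K * G * (n / m) * Real.log m ^ p) *
          ∑ k ∈ Finset.range n, (((k : ℝ) + 1) ^ p / 2 ^ k) := by rw [Finset.mul_sum]
    _ ≤ cn n * (2 ^ p * K * G * (n / m) * Real.log m ^ p) * sP p := by
        refine mul_le_mul_of_nonneg_left ?_ (by positivity)
        exact sum_le_sP p n
    _ = _ := by ring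

end Pool.Agent.U126.NC
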