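import Pool.Agent.U126.NC.Cnt
import Pool.Agent.W840.CT.Final

/-! # Pairs of times with a translation invariant relation -/

set_option autoImplicit false

namespace Pool.Agent.U126.NC

open scoped Classical
open Pool.Agent.W840.CT

/-- pairs of times on both sides of `t` whose sites are related -/
noncomputable def TR (R : Pt → Pt → Prop) (N t : ℕ) (ω : Fin (N + 1) → ℤ × ℤ) : ℕ :=
  ((Finset.univ : Finset (Fin (N + 1) × Fin (N + 1))).filter
    (fun q => q.1.1 < t ∧ t < q.2.1 ∧ R (ω q.1) (ω q.2))).card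

/-- translation invariance -/
def TI (R : Pt → Pt → Prop) : Prop := ∀ p q v, R (p - v) (q - v) ↔ R p q

/-- exponential tails of the number of related pairs across a time -/
def Tail (R : Pt → Pt → Prop) (G : ℕ) : Prop := ∀ N t r : ℕ, t ≤ N →
  4 ^ r * ({ω | SW N ω ∧ G * (r + 1) ≤ TR R N t ω} :
    Set (Fin (N + 1) → ℤ × ℤ)).ncard ≤ cn t * cn (N - t)

theorem nr_TI (k : ℕ) : TI (nr k) := by
  intro p q v
  unfold nr
  simp only [Prod.fst_sub, Prod.snd_sub, sub_sub_sub_cancel_right]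

/-- far points of a walk have a neighbour in the walk -/
theorem LS_nb {n : ℕ} {A : List Pt} (hA : A ∈ LS n) :
    ∀ u ∈ {x | x ∈ A}, far u → ∃ u' ∈ {x | x ∈ A}, adj u u' := by
  obtain ⟨h1, h2, h3, h4⟩ := hA
  intro u hu hf
  obtain ⟨i, hi, rfl⟩ := List.mem_iff_getElem.1 hu
  rcases Nat.eq_zero_or_pos i with h0 | h0
  · exfalso
    subst h0
    rw [List.head?_eq_getElem?, List.getElem?_eq_getElem hi, Option.some.injEq] at h2
    rw [h2] at hf
    rcases hf with h | h <;> simp at h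
  · refine ⟨A[i - 1], List.getElem_mem _, ?_⟩
    have h5 := List.isChain_iff_getElem.1 h3 (i - 1) (by omega)
    have e : A[i - 1 + 1]'(by omega) = A[i] := by congr 1; omega
    rw [e] at h5
    exact adj_comm h5

/-- pairs of walks which meet only at the origin, the second close to the first many times -/
def PK (k n m J : ℕ) : Set (List Pt × List Pt) :=
  {q | q.1 ∈ LS n ∧ q.2 ∈ LS m ∧ (∀ v ∈ q.2, v ∈ q.1 → v = 0) ∧
    J ≤ (VV {x | x ∈ q.1} k q.2).card}

theorem PK_finite (k n m J : ℕ) : (PK k n m J).Finite :=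
  ((LS_finite n).prod (LS_finite m)).subset (fun _ hq => ⟨hq.1, hq.2.1⟩)

theorem PK_card (k n m r : ℕ) :
    4 ^ r * (PK k n m (DD k * (k + 7) * (r + 1))).ncard ≤ (LS n).ncard * (LS m).ncard := by
  set Gs : List Pt → Set (List Pt) := fun A =>
    {B | B ∈ LS m ∧ (∀ v ∈ B, v ∈ {x | x ∈ A} → v = 0) ∧
      DD k * (k + 7) * (r + 1) ≤ (VV {x | x ∈ A} k B).card}
    with hG
  have hGf : ∀ A, (Gs A).Finite := fun A => (LS_finite m).subset (fun B hB => hB.1)
  have hsub : (PK k n m (DD k * (k + 7) * (r + 1))) ⊆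
      (((LS_finite n).toFinset.sigma (fun A => (hGf A).toFinset)).image
        (fun q : (Σ _ : List Pt, List Pt) => (q.1, q.2)) : Finset (List Pt × List Pt)) := by
    rintro ⟨A, B⟩ ⟨h1, h2, h3, h4⟩
    simp only at h1 h2 h3 h4
    rw [Finset.mem_coe, Finset.mem_image]
    refine ⟨⟨A, B⟩, ?_, rfl⟩
    rw [Finset.mem_sigma, Set.Finite.mem_toFinset, Set.Finite.mem_toFinset]
    exact ⟨h1, h2, fun v hv hvA => h3 v hv hvA, h4⟩
  have h1 : (PK k n m (DD k * (k + 7) * (r + 1))).ncard ≤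
      ∑ A ∈ (LS_finite n).toFinset, (Gs A).ncard := by
    refine (Set.ncard_le_ncard hsub (Finset.finite_toSet _)).trans ?_
    rw [Set.ncard_coe_finset]
    refine Finset.card_image_le.trans ?_
    rw [Finset.card_sigma]
    refine Finset.sum_le_sum (fun A _ => le_of_eq ?_)
    rw [Set.ncard_eq_toFinset_card _ (hGf A)]
  calc 4 ^ r * (PK k n m (DD k * (k + 7) * (r + 1))).ncard
      ≤ 4 ^ r * ∑ A ∈ (LS_finite n).toFinset, (Gs A).ncard := Nat.mul_le_mul_left _ h1
    _ = ∑ A ∈ (LS_finite n).toFinset, 4 ^ r * (Gs A).ncard := Finset.mul_sum _ _ _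
    _ ≤ ∑ A ∈ (LS_finite n).toFinset, (LS m).ncard := by
        refine Finset.sum_le_sum (fun A hA => ?_)
        rw [Set.Finite.mem_toFinset] at hA
        exact main' {x | x ∈ A} (LS_nb hA) m k r
    _ = (LS n).ncard * (LS m).ncard := by
        rw [Finset.sum_const, smul_eq_mul, ← Set.ncard_eq_toFinset_card _ (LS_finite n)]

/-- the ball has at most `(2k+1)²` points -/
theorem ball_card (k : ℕ) :
    (Finset.Icc (-(k : ℤ)) k ×ˢ Finset.Icc (-(k : ℤ)) k).card = (2 * k + 1) ^ 2 := by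
  rw [Finset.card_product, Int.card_Icc]
  have : ((k : ℤ) + 1 - -(k : ℤ)).toNat = 2 * k + 1 := by omega
  rw [this, sq]

theorem TR_le {N : ℕ} {ω : Fin (N + 1) → ℤ × ℤ} (h : SW N ω) (k : ℕ) {t : ℕ} (ht : t ≤ N) :
    TR (nr k) N t ω ≤ (2 * k + 1) ^ 2 * (VV {x | x ∈ pa ω t} k (fu ω t)).card := by
  unfold TR
  set S := (Finset.univ : Finset (Fin (N + 1) × Fin (N + 1))).filter
    (fun q => q.1.1 < t ∧ t < q.2.1 ∧ nr k (ω q.1) (ω q.2)) with hS
  set f : Fin (N + 1) × Fin (N + 1) → Pt := fun q => ex ω q.2.1 - ex ω t with hf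
  have h1 : S.card ≤ (2 * k + 1) ^ 2 * (S.image f).card := by
    refine Finset.card_le_mul_card_image S _ (fun a _ => ?_)
    rw [← ball_card k]
    refine Finset.card_le_card_of_injOn (fun q => ω q.1 - ω q.2) ?_ ?_
    · rintro ⟨i, j⟩ hq
      simp only [hS, Finset.coe_filter, Finset.mem_filter, Finset.mem_univ, true_and,
        Set.mem_ofPred_eq] at hq
      obtain ⟨⟨-, -, h3⟩, -⟩ := hq
      unfold nr at h3
      rw [Finset.mem_coe, Finset.mem_product, Finset.mem_Icc, Finset.mem_Icc]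
      simp only [Prod.fst_sub, Prod.snd_sub]
      have e1 := abs_nonneg ((ω j).1 - (ω i).1)
      have e2 := abs_nonneg ((ω j).2 - (ω i).2)
      have e3 : |(ω j).1 - (ω i).1| ≤ k := by omega
      have e4 : |(ω j).2 - (ω i).2| ≤ k := by omega
      rw [abs_le] at e3 e4
      omega
    · rintro ⟨i, j⟩ hq ⟨i', j'⟩ hq' h4
      simp only [hS, hf, Finset.coe_filter, Finset.mem_filter, Finset.mem_univ, true_and,
        Set.mem_ofPred_eq] at hq hq' h4
      have e1 : ex ω j.1 = ex ω j'.1 := sub_left_injective (hq.2.trans hq'.2.symm)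
      rw [ex_val, ex_val] at e1
      have e2 := h.2.2 e1
      subst e2
      have e3 := h.2.2 (sub_left_injective h4)
      rw [e3]
  have h2 : S.image f ⊆ VV {x | x ∈ pa ω t} k (fu ω t) := by
    intro v hv
    rw [Finset.mem_image] at hv
    obtain ⟨⟨i, j⟩, hq, rfl⟩ := hv
    simp only [hS, Finset.mem_filter, Finset.mem_univ, true_and] at hq
    obtain ⟨a1, a2, a3⟩ := hq
    have hi := i.2
    have hj := j.2
    unfold VV
    rw [Finset.mem_filter, List.mem_toFinset]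
    refine ⟨?_, ex ω i.1 - ex ω t, ?_, ?_⟩
    · unfold fu
      rw [List.mem_map]
      refine ⟨j.1 - t, List.mem_range.2 (by omega), ?_⟩
      rw [show t + (j.1 - t) = j.1 by omega]
    · show ex ω i.1 - ex ω t ∈ pa ω t
      unfold pa
      rw [List.mem_map]
      refine ⟨t - i.1, List.mem_range.2 (by omega), ?_⟩
      rw [show t - (t - i.1) = i.1 by omega]
    · simp only [hf]
      rw [nr_TI, ex_val, ex_val]
      exact a3
  exact h1.trans (Nat.mul_le_mul_left _ (Finset.card_le_card h2))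

/-- the constant for the distance `k` -/
def GG (k : ℕ) : ℕ := (2 * k + 1) ^ 2 * (DD k * (k + 7))

theorem GG_pos (k : ℕ) : 1 ≤ GG k := by
  unfold GG
  have h1 := two_le_DD k
  have h2 : 0 < (2 * k + 1) ^ 2 * (DD k * (k + 7)) := by positivity
  exact h2

theorem split_cardK (k N t r : ℕ) (ht : t ≤ N) :
    ({ω | SW N ω ∧ GG k * (r + 1) ≤ TR (nr k) N t ω} : Set (Fin (N + 1) → ℤ × ℤ)).ncard ≤
      (PK k t (N - t) (DD k * (k + 7) * (r + 1))).ncard := by
  refine Set.ncard_le_ncard_of_injOn (fun ω => (pa ω t, fu ω t)) ?_ ?_ (PK_finite _ _ _ _)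
  · rintro ω ⟨h1, h2⟩
    refine ⟨pa_mem h1 ht, fu_mem h1 ht, split_disj h1 ht, ?_⟩
    have h3 := h2.trans (TR_le h1 k ht)
    unfold GG at h3
    rw [mul_assoc] at h3
    exact Nat.le_of_mul_le_mul_left h3 (by positivity)
  · rintro ω ⟨h1, -⟩ ω' ⟨h1', -⟩ h
    simp only [Prod.mk.injEq] at h
    exact split_inj h1 h1' ht h.1 h.2

theorem tail_nr (k : ℕ) : Tail (nr k) (GG k) := by
  intro N t r ht
  calc _ ≤ 4 ^ r * (PK k t (N - t) (DD k * (k + 7) * (r + 1))).ncard :=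
        Nat.mul_le_mul_left _ (split_cardK k N t r ht)
    _ ≤ (LS t).ncard * (LS (N - t)).ncard := PK_card _ _ _ _
    _ ≤ cn t * cn (N - t) := Nat.mul_le_mul (LS_le _) (LS_le _)

theorem three_pow_ge (l : ℕ) : 2 * (l + 1) + 1 ≤ 3 ^ (l + 1) := by
  induction l with
  | zero => norm_num
  | succ l ih => rw [pow_succ]; omega

theorem eight_pow_ge (l : ℕ) : l + 1 + 7 ≤ 8 ^ (l + 1) := by
  induction l with
  | zero => norm_num
  | succ l ih => rw [pow_succ]; omega

/-- the constants grow exponentially -/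
theorem GG_le (k : ℕ) (hk : 1 ≤ k) : GG k ≤ 1000000000 ^ k := by
  obtain ⟨l, rfl⟩ : ∃ l, k = l + 1 := ⟨k - 1, by omega⟩
  unfold GG DD
  have h1 : (2 * (l + 1) + 1) ^ 2 ≤ 9 ^ (l + 1) := by
    calc (2 * (l + 1) + 1) ^ 2 ≤ (3 ^ (l + 1)) ^ 2 := Nat.pow_le_pow_left (three_pow_ge l) 2
      _ = 9 ^ (l + 1) := by rw [← pow_mul, mul_comm, pow_mul]; norm_num
  have h2 := eight_pow_ge l
  have h3 : 2 ≤ 2 ^ (l + 1) := by
    calc 2 = 2 ^ 1 := rfl
      _ ≤ 2 ^ (l + 1) := Nat.pow_le_pow_right (by norm_num) (by omega)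
  calc (2 * (l + 1) + 1) ^ 2 * (2 * 2000000 ^ (l + 1) * (l + 1 + 7))
      ≤ 9 ^ (l + 1) * (2 ^ (l + 1) * 2000000 ^ (l + 1) * 8 ^ (l + 1)) := by gcongr
    _ = 288000000 ^ (l + 1) := by rw [← mul_pow, ← mul_pow, ← mul_pow]; norm_num
    _ ≤ 1000000000 ^ (l + 1) := Nat.pow_le_pow_left (by norm_num) _

end Pool.Agent.U126.NC
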