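import Pool.Agent.U126.NC.Loc
import Pool.Agent.W840.CT.Walk

/-! # Few walks come close to a set many times -/

set_option autoImplicit false

namespace Pool.Agent.U126.NC

open scoped Classical
open Pool.Agent.W840.CT

/-- `q` is within distance `k` of `p` -/
def nr (k : ℕ) (p q : Pt) : Prop := |q.1 - p.1| + |q.2 - p.2| ≤ (k : ℤ)

/-- points of `B` within distance `k` of `A` -/
noncomputable def VV (A : Set Pt) (k : ℕ) (B : List Pt) : Finset Pt :=
  B.toFinset.filter (fun v => ∃ u ∈ A, nr k u v)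

/-- sites close to the walk -/
noncomputable def NB (B : List Pt) : Finset Pt := B.toFinset.biUnion box

/-- sites within distance `k` of `A`, far from the origin, with a surgery -/
noncomputable def QA (A : Set Pt) (k : ℕ) (B : List Pt) : Finset Pt :=
  (NB B).filter (fun p => (∃ u ∈ A, nr k u p) ∧ far p ∧ ∃ κ x L, Surg B p κ x L)

/-- those in the class `c` with a surgery of code `κ` -/
noncomputable def QG (A : Set Pt) (k : ℕ) (κ : Bool × Pt) (c : Pt) (B : List Pt) : Finset Pt :=
  (NB B).filter (fun p => (∃ u ∈ A, nr k u p) ∧ cls p = c ∧ far p ∧ ∃ x L, Surg B p κ x L)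

section
variable {A : Set Pt} {k : ℕ} {κ : Bool × Pt} {c : Pt} {B : List Pt} {T : Finset Pt}

theorem mem_QG {p : Pt} (hp : p ∈ QG A k κ c B) :
    (∃ u ∈ A, nr k u p) ∧ cls p = c ∧ far p ∧ ∃ x L, Surg B p κ x L :=
  (Finset.mem_filter.1 hp).2

theorem famT (hT : T ⊆ QG A k κ c B) : Fam B T κ T := by
  have h := fun p (hp : p ∈ T) => mem_QG (hT hp)
  refine ⟨fun p hp => (h p hp).2.2.2, fun p hp p' hp' hne => ?_, subset_rfl, ?_⟩
  · have h1 := (h p hp).2.1
    have h2 := (h p' hp').2.1
    rw [← h2] at h1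
    unfold cls at h1
    rw [Prod.mk.injEq] at h1
    by_contra hcon
    push Not at hcon
    apply hne
    obtain ⟨ha, hb⟩ := hcon
    rw [abs_lt] at ha hb
    refine Prod.ext ?_ ?_ <;> omega
  · intro v hv hvT
    obtain ⟨x, L, hs⟩ := (h v hvT).2.2.2
    exact absurd hv hs.np

theorem VV_nw (hT : T ⊆ QG A k κ c B) :
    (VV A k (nw B κ T)).card ≤ (VV A k B).card + 2 * T.card := by
  have F := famT hT
  have hsub : VV A k (nw B κ T) ⊆ VV A k B ∪ (T ∪ T.image (fun p => p + κ.2)) := by
    intro v hv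
    unfold VV at hv
    rw [Finset.mem_filter, List.mem_toFinset] at hv
    obtain ⟨h1, h2⟩ := hv
    rcases F.mem_nw h1 with h | ⟨p, hp, h | ⟨-, h⟩⟩
    · apply Finset.mem_union_left
      unfold VV
      rw [Finset.mem_filter, List.mem_toFinset]
      exact ⟨h, h2⟩
    · apply Finset.mem_union_right
      apply Finset.mem_union_left
      rw [h]; exact hp
    · apply Finset.mem_union_right
      apply Finset.mem_union_right
      rw [Finset.mem_image]
      exact ⟨p, hp, h.symm⟩
  have h1 := Finset.card_le_card hsub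
  have h2 := Finset.card_union_le (VV A k B) (T ∪ T.image (fun p => p + κ.2))
  have h3 := Finset.card_union_le T (T.image (fun p => p + κ.2))
  have h4 := Finset.card_image_le (s := T) (f := fun p => p + κ.2)
  omega

theorem T_sub (hT : T ⊆ QG A k κ c B) : T ⊆ VV A k (nw B κ T) := by
  have F := famT hT
  intro p hp
  unfold VV
  rw [Finset.mem_filter, List.mem_toFinset]
  exact ⟨F.p_mem_nw hp, (mem_QG (hT hp)).1⟩

end

/-- the injection `(B, T) ↦ (new walk, T)` -/
theorem cnt1 (A : Set Pt) (k : ℕ) (κ : Bool × Pt) (c : Pt) (r J M n : ℕ) :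
    ({B | B ∈ LS n ∧ (VV A k B).card ≤ M ∧ J ≤ (QG A k κ c B).card} : Set (List Pt)).ncard *
      J.choose r ≤ 16 ^ r * (LS n).ncard * (M + 2 * r).choose r := by
  set S : Set (List Pt) := {B | B ∈ LS n ∧ (VV A k B).card ≤ M ∧ J ≤ (QG A k κ c B).card}
    with hS
  have hSf : S.Finite := (LS_finite n).subset (fun B hB => hB.1)
  set m := n + (if κ.1 = true then 2 else 0) * r with hm
  set Tg := ((LS_finite m).toFinset.filter (fun W => (VV A k W).card ≤ M + 2 * r)).sigma
    (fun W => (VV A k W).powersetCard r) with hTg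
  have hmain : ((hSf.toFinset).sigma (fun B => (QG A k κ c B).powersetCard r)).card ≤
      Tg.card := by
    refine Finset.card_le_card_of_injOn
      (fun q => (⟨nw q.1 κ q.2, q.2⟩ : Σ _ : List Pt, Finset Pt)) ?_ ?_
    · rintro ⟨B, T⟩ hq
      rw [Finset.mem_coe, Finset.mem_sigma, Set.Finite.mem_toFinset, Finset.mem_powersetCard] at hq
      obtain ⟨⟨⟨h1, h2, h3, h4⟩, hM, -⟩, hT, hc⟩ := hq
      have F := famT hT
      rw [Finset.mem_coe, hTg, Finset.mem_sigma, Finset.mem_filter, Set.Finite.mem_toFinset,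
        Finset.mem_powersetCard]
      refine ⟨⟨⟨?_, ?_, F.chain h3 h4, F.nodup h4⟩, ?_⟩, T_sub hT, hc⟩
      · simp only
        rw [F.length h4, h1, hc, hm]
        ring
      · refine F.head h2 (fun p hp => ?_)
        exact (mem_QG (hT hp)).2.2.1
      · have := VV_nw hT
        simp only at this hM hc ⊢
        omega
    · rintro ⟨B, T⟩ hq ⟨B', T'⟩ hq' h
      rw [Finset.mem_coe, Finset.mem_sigma, Set.Finite.mem_toFinset, Finset.mem_powersetCard] at hq
      rw [Finset.mem_coe, Finset.mem_sigma, Set.Finite.mem_toFinset, Finset.mem_powersetCard] at hq'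
      obtain ⟨-, hT, -⟩ := hq
      obtain ⟨-, hT', -⟩ := hq'
      simp only [Sigma.mk.injEq] at h hT hT'
      obtain ⟨h, he⟩ := h
      rw [heq_eq_eq] at he
      subst he
      have d1 := (famT hT).decode
      have d2 := (famT hT').decode
      rw [h, d2] at d1
      subst d1
      rfl
  have hlow : hSf.toFinset.card * J.choose r ≤
      ((hSf.toFinset).sigma (fun B => (QG A k κ c B).powersetCard r)).card := by
    rw [Finset.card_sigma, ← smul_eq_mul]
    refine Finset.card_nsmul_le_sum _ _ _ (fun B hB => ?_)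
    rw [Finset.card_powersetCard]
    rw [Set.Finite.mem_toFinset] at hB
    exact Nat.choose_le_choose r hB.2.2
  have hup : Tg.card ≤ (LS_finite m).toFinset.card * (M + 2 * r).choose r := by
    rw [hTg, Finset.card_sigma]
    refine (Finset.sum_le_card_nsmul _ _ ((M + 2 * r).choose r) (fun W hW => ?_)).trans ?_
    · rw [Finset.card_powersetCard]
      exact Nat.choose_le_choose r (Finset.mem_filter.1 hW).2
    · rw [smul_eq_mul]
      exact Nat.mul_le_mul_right _ (Finset.card_filter_le _ _)
  have e1 : S.ncard = hSf.toFinset.card := Set.ncard_eq_toFinset_card S hSf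
  have e2 : (LS m).ncard = (LS_finite m).toFinset.card := Set.ncard_eq_toFinset_card _ _
  rw [e1]
  refine (hlow.trans (hmain.trans hup)).trans ?_
  rw [← e2, hm]
  refine Nat.mul_le_mul_right _ ?_
  split_ifs with h
  · rw [mul_comm 2 r, mul_comm r 2]
    exact LS_add n r
  · simp only [zero_mul, add_zero]
    exact Nat.le_mul_of_pos_left _ (by positivity)

theorem QA_card (A : Set Pt) (k : ℕ) (B : List Pt) :
    (QA A k B).card ≤ ∑ q ∈ codes ×ˢ classes, (QG A k q.1 q.2 B).card := by
  refine (Finset.card_le_card ?_).trans Finset.card_biUnion_le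
  intro p hp
  unfold QA at hp
  rw [Finset.mem_filter] at hp
  obtain ⟨hN, hA, hf, κ, x, L, hs⟩ := hp
  rw [Finset.mem_biUnion]
  refine ⟨(κ, cls p), ?_, ?_⟩
  · rw [Finset.mem_product]
    constructor
    · unfold codes
      rw [Finset.mem_product, Finset.mem_product, Finset.mem_Icc, Finset.mem_Icc]
      have h1 := abs_le.1 hs.c1
      have h2 := abs_le.1 hs.c2
      exact ⟨Finset.mem_univ _, h1, h2⟩
    · unfold classes cls
      rw [Finset.mem_product, Finset.mem_Ico, Finset.mem_Ico]
      simp only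
      omega
  · unfold QG
    rw [Finset.mem_filter]
    exact ⟨hN, hA, rfl, hf, x, L, hs⟩

/-- box of radius three -/
noncomputable def box3 (e : Pt) : Finset Pt :=
  Finset.Icc (e.1 - 3) (e.1 + 3) ×ˢ Finset.Icc (e.2 - 3) (e.2 + 3)

theorem box3_card (e : Pt) : (box3 e).card = 49 := by
  unfold box3
  rw [Finset.card_product, Int.card_Icc, Int.card_Icc]
  have h1 : (e.1 + 3 + 1 - (e.1 - 3)).toNat = 7 := by
    have : e.1 + 3 + 1 - (e.1 - 3) = 7 := by ring
    rw [this]; rfl
  have h2 : (e.2 + 3 + 1 - (e.2 - 3)).toNat = 7 := by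
    have : e.2 + 3 + 1 - (e.2 - 3) = 7 := by ring
    rw [this]; rfl
  rw [h1, h2]

theorem mem_box3 {e p : Pt} : p ∈ box3 e ↔ |p.1 - e.1| ≤ 3 ∧ |p.2 - e.2| ≤ 3 := by
  unfold box3
  rw [Finset.mem_product, Finset.mem_Icc, Finset.mem_Icc, abs_le, abs_le]
  constructor <;> rintro ⟨⟨h1, h2⟩, h3, h4⟩ <;> refine ⟨⟨?_, ?_⟩, ?_, ?_⟩ <;> omega

/-- one step towards `u` -/
theorem toward {u v : Pt} {k : ℕ} (h : |v.1 - u.1| + |v.2 - u.2| = (k : ℤ) + 1) :
    ∃ p, adj p v ∧ |p.1 - u.1| + |p.2 - u.2| = (k : ℤ) := by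
  obtain ⟨a, b⟩ := u
  obtain ⟨c, d⟩ := v
  simp only at h
  rcases lt_trichotomy a c with h1 | h1 | h1
  · refine ⟨(c - 1, d), ?_, ?_⟩
    · unfold adj; simp
    · simp only
      rw [abs_of_pos (by omega)] at h
      rw [abs_of_nonneg (by omega)]
      omega
  · subst h1
    rcases lt_trichotomy b d with h2 | h2 | h2
    · refine ⟨(a, d - 1), ?_, ?_⟩
      · unfold adj; simp
      · simp only
        rw [abs_of_pos (show 0 < d - b by omega)] at h
        rw [abs_of_nonneg (show 0 ≤ d - 1 - b by omega)]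
        omega
    · subst h2
      simp at h
      omega
    · refine ⟨(a, d + 1), ?_, ?_⟩
      · unfold adj; simp
      · simp only
        rw [abs_of_neg (show d - b < 0 by omega)] at h
        rw [abs_of_nonpos (show d + 1 - b ≤ 0 by omega)]
        omega
  · refine ⟨(c + 1, d), ?_, ?_⟩
    · unfold adj; simp
    · simp only
      rw [abs_of_neg (show c - a < 0 by omega)] at h
      rw [abs_of_nonpos (show c + 1 - a ≤ 0 by omega)]
      omega

theorem adj_box {p q : Pt} (h : adj p q) : |q.1 - p.1| ≤ 1 ∧ |q.2 - p.2| ≤ 1 := by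
  unfold adj at h
  have := abs_nonneg (q.1 - p.1)
  have := abs_nonneg (q.2 - p.2)
  omega

/-- **The recursion.** -/
theorem step_le {n : ℕ} {B : List Pt} (hB : B ∈ LS n) {A : Set Pt}
    (hA : ∀ u ∈ A, far u → ∃ u' ∈ A, adj u u') (hd : ∀ v ∈ B, v ∈ A → v = 0) (k : ℕ) :
    (VV A (k + 1) B).card ≤ 25 * (VV A k B).card + 98 + 4 * (QA A k B).card := by
  obtain ⟨b1, b2, b3, b4⟩ := hB
  have hsub : VV A (k + 1) B ⊆ ((VV A k B).biUnion box ∪ (box3 0 ∪ box3 (B.getLastD 0))) ∪
      (QA A k B).biUnion (fun p => dirs.image (fun f => p + f)) := by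
    intro v hv
    unfold VV at hv
    rw [Finset.mem_filter, List.mem_toFinset] at hv
    obtain ⟨hvB, u, hu, hn⟩ := hv
    by_contra hcon
    simp only [Finset.mem_union, Finset.mem_biUnion, not_or, not_exists, not_and] at hcon
    obtain ⟨⟨c1, c2, c3⟩, c4⟩ := hcon
    have c1' : ∀ w ∈ B, (∃ u ∈ A, nr k u w) → v ∉ box w := by
      intro w hw hex
      refine c1 w ?_
      unfold VV
      rw [Finset.mem_filter, List.mem_toFinset]
      exact ⟨hw, hex⟩
    have hself : v ∈ box v := by rw [mem_box]; simp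
    have hnk : ¬ nr k u v := fun h => c1' v hvB ⟨u, hu, h⟩ hself
    unfold nr at hn hnk
    push_cast at hn
    obtain ⟨p, apv, hp⟩ := toward (u := u) (v := v) (k := k) (by omega)
    have hpk : ∃ u ∈ A, nr k u p := ⟨u, hu, hp.le⟩
    have hpv := adj_box apv
    have hpB : p ∉ B := by
      intro h
      apply c1' p h hpk
      rw [mem_box]
      omega
    have hfar : far p := by
      unfold far
      by_contra h
      push Not at h
      apply c2
      rw [mem_box3]
      simp only [Prod.fst_zero, Prod.snd_zero, sub_zero]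
      rw [abs_lt, abs_lt] at h
      rw [abs_le, abs_le] at hpv
      rw [abs_le, abs_le]
      omega
    -- the second neighbour
    obtain ⟨p', app, hp'⟩ : ∃ p', adj p p' ∧ p' ∉ B := by
      rcases Nat.eq_zero_or_pos k with hk | hk
      · subst hk
        have e : p = u := by
          push_cast at hp
          have h1 := abs_nonneg (p.1 - u.1)
          have h2 := abs_nonneg (p.2 - u.2)
          have h3 : p.1 - u.1 = 0 := abs_eq_zero.1 (by omega)
          have h4 : p.2 - u.2 = 0 := abs_eq_zero.1 (by omega)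
          exact Prod.ext (by omega) (by omega)
        subst e
        obtain ⟨u', hu', ha⟩ := hA p hu hfar
        refine ⟨u', ha, fun h => ?_⟩
        have := hd u' h hu'
        subst this
        have hh := adj_box ha
        simp only [Prod.fst_zero, Prod.snd_zero, zero_sub, abs_neg] at hh
        unfold far at hfar
        omega
      · obtain ⟨l, rfl⟩ : ∃ l, k = l + 1 := ⟨k - 1, by omega⟩
        push_cast at hp
        obtain ⟨p', app, hp'⟩ := toward (u := u) (v := p) (k := l) hp
        refine ⟨p', adj_comm app, fun h => ?_⟩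
        have hp'v := adj_box app
        apply c1' p' h ⟨u, hu, ?_⟩
        · rw [mem_box]
          rw [abs_le, abs_le] at hp'v hpv
          rw [abs_le, abs_le]
          omega
        · unfold nr
          push_cast
          omega
    have hint : ∀ x ∈ B, |x.1 - p.1| ≤ 2 → |x.2 - p.2| ≤ 2 → ∃ z w, Con B z x ∧ Con B x w := by
      intro x hx hx1 hx2
      have hx0 : x ≠ 0 := by
        rintro rfl
        simp only [Prod.fst_zero, Prod.snd_zero, zero_sub, abs_neg] at hx1 hx2
        rcases hfar with h | h <;> omega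
      refine interior hx (by rw [b2]; simpa using fun h => hx0 h.symm) ?_
      intro h
      apply c3
      rw [List.getLastD_eq_getLast?, h]
      simp only [Option.getD_some]
      rw [mem_box3]
      rw [abs_le] at hx1 hx2
      rw [abs_le, abs_le] at hpv
      rw [abs_le, abs_le]
      omega
    obtain ⟨κ, x, L, hs⟩ := loc2 b3 b4 hpB hvB apv hp' app hint
    refine c4 p ?_ ?_
    · unfold QA NB
      rw [Finset.mem_filter, Finset.mem_biUnion]
      refine ⟨⟨v, List.mem_toFinset.2 hvB, ?_⟩, hpk, hfar, κ, x, L, hs⟩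
      rw [mem_box]
      rw [abs_le, abs_le] at hpv
      rw [abs_le, abs_le]
      omega
    · rw [Finset.mem_image]
      refine ⟨v - p, ?_, by abel⟩
      rw [mem_dirs]
      exact adj_iff.1 apv
  have h1 := Finset.card_le_card hsub
  have h2 := Finset.card_union_le ((VV A k B).biUnion box ∪ (box3 0 ∪ box3 (B.getLastD 0)))
    ((QA A k B).biUnion (fun p => dirs.image (fun f => p + f)))
  have h3 := Finset.card_union_le ((VV A k B).biUnion box) (box3 0 ∪ box3 (B.getLastD 0))
  have h4 := Finset.card_union_le (box3 0) (box3 (B.getLastD 0))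
  rw [box3_card, box3_card] at h4
  have h5 : ((VV A k B).biUnion box).card ≤ (VV A k B).card * 25 :=
    Finset.card_biUnion_le_card_mul _ _ _ (fun p _ => (box_card p).le)
  have h6 : ((QA A k B).biUnion (fun p => dirs.image (fun f => p + f))).card ≤
      (QA A k B).card * 4 := by
    refine Finset.card_biUnion_le_card_mul _ _ _ (fun p _ => ?_)
    exact Finset.card_image_le.trans (by decide)
  omega

/-- the constants -/
def DD (k : ℕ) : ℕ := 2 * 2000000 ^ k

theorem two_le_DD (k : ℕ) : 2 ≤ DD k := by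
  unfold DD
  have : 1 ≤ 2000000 ^ k := Nat.one_le_pow _ _ (by norm_num)
  omega

theorem choose_le_six (D r : ℕ) (hD : 2 ≤ D) : (D * r + 2 * r).choose r ≤ (6 * D) ^ r := by
  have h1 : (D * r + 2 * r).choose r ≤ (2 * D * r).choose r := by
    refine Nat.choose_le_choose r ?_
    nlinarith
  refine h1.trans ?_
  have h2 : (((2 * D * r).choose r : ℕ) : ℝ) ≤ (((2 * D * r : ℕ)) : ℝ) ^ r / (r.factorial : ℝ) :=
    Nat.choose_le_pow_div r (2 * D * r)
  have h3 := Real.pow_div_factorial_le_exp (r : ℝ) (Nat.cast_nonneg r) r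
  have h4 : Real.exp (r : ℝ) ≤ 3 ^ r := by
    have e : (r : ℝ) = r * 1 := by ring
    rw [e, Real.exp_nat_mul]
    refine pow_le_pow_left₀ (Real.exp_pos _).le ?_ r
    have := Real.exp_one_lt_d9
    linarith
  have h5 : (((2 * D * r).choose r : ℕ) : ℝ) ≤ (((6 * D) ^ r : ℕ) : ℝ) := by
    calc (((2 * D * r).choose r : ℕ) : ℝ) ≤ (((2 * D * r : ℕ)) : ℝ) ^ r / (r.factorial : ℝ) := h2
      _ = (2 * D) ^ r * ((r : ℝ) ^ r / (r.factorial : ℝ)) := by push_cast; rw [mul_pow]; ring
      _ ≤ (2 * D) ^ r * 3 ^ r := by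
          refine mul_le_mul_of_nonneg_left (h3.trans h4) (by positivity)
      _ = _ := by
          push_cast
          rw [← mul_pow]
          ring
  exact_mod_cast h5

/-- **Few walks come close to a set many times.** -/
theorem main (A : Set Pt) (hA : ∀ u ∈ A, far u → ∃ u' ∈ A, adj u u') (n k : ℕ) :
    ∀ r : ℕ, 1 ≤ r →
    4 ^ r * ({B | B ∈ LS n ∧ (∀ v ∈ B, v ∈ A → v = 0) ∧ DD k * r < (VV A k B).card} :
      Set (List Pt)).ncard ≤ 1152 * k * (LS n).ncard := by
  induction k with
  | zero =>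
    intro r hr
    have h0 : ({B | B ∈ LS n ∧ (∀ v ∈ B, v ∈ A → v = 0) ∧ DD 0 * r < (VV A 0 B).card} :
      Set (List Pt)) = ∅ := by
      ext B
      simp only [Set.mem_ofPred_eq, Set.mem_empty_iff_false, iff_false, not_and, not_lt]
      intro _ hd
      have h1 : VV A 0 B ⊆ {0} := by
        intro v hv
        unfold VV at hv
        rw [Finset.mem_filter, List.mem_toFinset] at hv
        obtain ⟨hvB, u, hu, hn⟩ := hv
        unfold nr at hn
        push_cast at hn
        have h1 := abs_nonneg (v.1 - u.1)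
        have h2 := abs_nonneg (v.2 - u.2)
        have h3 : v.1 - u.1 = 0 := abs_eq_zero.1 (by omega)
        have h4 : v.2 - u.2 = 0 := abs_eq_zero.1 (by omega)
        have e : v = u := Prod.ext (by omega) (by omega)
        subst e
        rw [Finset.mem_singleton]
        exact hd v hvB hu
      have h2 := Finset.card_le_card h1
      rw [Finset.card_singleton] at h2
      have h3 := two_le_DD 0
      have h4 : 2 * 1 ≤ DD 0 * r := Nat.mul_le_mul h3 hr
      omega
    rw [h0, Set.ncard_empty]
    simp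
  | succ k ih =>
    intro r hr
    set D := DD k with hDk
    have hD2 : 2 ≤ D := two_le_DD k
    have hDs : DD (k + 1) = 2000000 * D := by rw [hDk]; unfold DD; ring
    set J := 384 * D * r with hJ
    set S0 : Set (List Pt) :=
      {B | B ∈ LS n ∧ (∀ v ∈ B, v ∈ A → v = 0) ∧ D * r < (VV A k B).card} with hS0
    set U : Bool × Pt → Pt → Set (List Pt) := fun κ c =>
      {B | B ∈ LS n ∧ (VV A k B).card ≤ D * r ∧ J ≤ (QG A k κ c B).card} with hU
    have hUf : ∀ q : (Bool × Pt) × Pt, (U q.1 q.2).Finite := fun q =>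
      (LS_finite n).subset (fun B hB => hB.1)
    have hS0f : S0.Finite := (LS_finite n).subset (fun B hB => hB.1)
    have hDr : 2 * 1 ≤ D * r := Nat.mul_le_mul hD2 hr
    have hsub : ({B | B ∈ LS n ∧ (∀ v ∈ B, v ∈ A → v = 0) ∧
        DD (k + 1) * r < (VV A (k + 1) B).card} : Set (List Pt)) ⊆
        S0 ∪ ⋃ q ∈ codes ×ˢ classes, U q.1 q.2 := by
      rintro B ⟨h1, h2, h3⟩
      by_contra hcon
      rw [Set.mem_union, not_or] at hcon
      obtain ⟨n1, n2⟩ := hcon
      have h4 : (VV A k B).card ≤ D * r := by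
        by_contra h
        exact n1 ⟨h1, h2, by omega⟩
      simp only [Set.mem_iUnion, not_exists, exists_prop] at n2
      have h5 : ∀ q ∈ codes ×ˢ classes, (QG A k q.1 q.2 B).card < J := by
        intro q hq
        by_contra h
        exact n2 q ⟨hq, h1, h4, by omega⟩
      have h6 : ∑ q ∈ codes ×ˢ classes, (QG A k q.1 q.2 B).card < 1152 * J := by
        calc _ < ∑ q ∈ codes ×ˢ classes, J := by
              refine Finset.sum_lt_sum_of_nonempty ?_ h5
              rw [← Finset.card_pos, card_cc]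
              norm_num
          _ = 1152 * J := by rw [Finset.sum_const, card_cc, smul_eq_mul]
      have h7 := QA_card A k B
      have h8 := step_le h1 hA h2 k
      rw [hDs] at h3
      have e1 : 2000000 * D * r = 2000000 * (D * r) := by ring
      have e2 : J = 384 * (D * r) := by rw [hJ]; ring
      omega
    have hfinU : (⋃ q ∈ codes ×ˢ classes, U q.1 q.2).Finite :=
      Set.Finite.biUnion (codes ×ˢ classes).finite_toSet (fun q _ => hUf q)
    have h1 : ({B | B ∈ LS n ∧ (∀ v ∈ B, v ∈ A → v = 0) ∧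
        DD (k + 1) * r < (VV A (k + 1) B).card} : Set (List Pt)).ncard ≤
        S0.ncard + ∑ q ∈ codes ×ˢ classes, (U q.1 q.2).ncard := by
      refine (Set.ncard_le_ncard hsub (hS0f.union hfinU)).trans ?_
      refine (Set.ncard_union_le _ _).trans ?_
      refine Nat.add_le_add_left ?_ _
      have e : (⋃ q ∈ codes ×ˢ classes, U q.1 q.2) =
          (((codes ×ˢ classes).biUnion (fun q => (hUf q).toFinset) : Finset (List Pt)) :
            Set (List Pt)) := by
        ext B
        simp only [Set.mem_iUnion, exists_prop, Finset.coe_biUnion, Finset.mem_coe,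
          Set.Finite.coe_toFinset]
      rw [e, Set.ncard_coe_finset]
      refine Finset.card_biUnion_le.trans (le_of_eq ?_)
      refine Finset.sum_congr rfl (fun q _ => ?_)
      rw [Set.ncard_eq_toFinset_card _ (hUf q)]
    have h2 : ∀ q ∈ codes ×ˢ classes, 4 ^ r * (U q.1 q.2).ncard ≤ (LS n).ncard := by
      intro q _
      have h3 := cnt1 A k q.1 q.2 r J (D * r) n
      have h4 : (384 * D) ^ r ≤ J.choose r := choose_ge (384 * D) r (by omega)
      have h5 := choose_le_six D r hD2
      have h6 : (U q.1 q.2).ncard * (384 * D) ^ r ≤ 16 ^ r * (LS n).ncard * (6 * D) ^ r :=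
        ((Nat.mul_le_mul_left _ h4).trans h3).trans (Nat.mul_le_mul_left _ h5)
      have e1 : (384 * D) ^ r = 4 ^ r * (16 ^ r * (6 * D) ^ r) := by
        rw [← mul_pow, ← mul_pow]
        ring
      have h7 : (16 ^ r * (6 * D) ^ r) * (4 ^ r * (U q.1 q.2).ncard) ≤
          (16 ^ r * (6 * D) ^ r) * (LS n).ncard := by
        calc _ = (U q.1 q.2).ncard * (384 * D) ^ r := by rw [e1]; ring
          _ ≤ _ := h6
          _ = _ := by ring
      exact Nat.le_of_mul_le_mul_left h7 (by positivity)
    calc _ ≤ 4 ^ r * (S0.ncard + ∑ q ∈ codes ×ˢ classes, (U q.1 q.2).ncard) :=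
          Nat.mul_le_mul_left _ h1
      _ = 4 ^ r * S0.ncard + ∑ q ∈ codes ×ˢ classes, 4 ^ r * (U q.1 q.2).ncard := by
          rw [mul_add, Finset.mul_sum]
      _ ≤ 1152 * k * (LS n).ncard + ∑ q ∈ codes ×ˢ classes, (LS n).ncard :=
          Nat.add_le_add (ih r hr) (Finset.sum_le_sum h2)
      _ = 1152 * (k + 1) * (LS n).ncard := by
          rw [Finset.sum_const, card_cc, smul_eq_mul]
          ring

/-- the clean form -/
theorem main' (A : Set Pt) (hA : ∀ u ∈ A, far u → ∃ u' ∈ A, adj u u') (n k r : ℕ) :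
    4 ^ r * ({B | B ∈ LS n ∧ (∀ v ∈ B, v ∈ A → v = 0) ∧
      DD k * (k + 7) * (r + 1) ≤ (VV A k B).card} : Set (List Pt)).ncard ≤ (LS n).ncard := by
  have h := main A hA n k (r + (k + 6)) (by omega)
  have hk : k ≤ 4 ^ k := (Nat.lt_pow_self (by norm_num)).le
  have hs : ({B | B ∈ LS n ∧ (∀ v ∈ B, v ∈ A → v = 0) ∧
      DD k * (k + 7) * (r + 1) ≤ (VV A k B).card} : Set (List Pt)) ⊆
      {B | B ∈ LS n ∧ (∀ v ∈ B, v ∈ A → v = 0) ∧ DD k * (r + (k + 6)) < (VV A k B).card} := by
    rintro B ⟨h1, h2, h3⟩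
    refine ⟨h1, h2, lt_of_lt_of_le ?_ h3⟩
    rw [mul_assoc]
    refine Nat.mul_lt_mul_of_pos_left ?_ (by have := two_le_DD k; omega)
    nlinarith
  have h1 := Set.ncard_le_ncard hs ((LS_finite n).subset (fun B hB => hB.1))
  refine (Nat.mul_le_mul_left _ h1).trans ?_
  set x := ({B | B ∈ LS n ∧ (∀ v ∈ B, v ∈ A → v = 0) ∧
      DD k * (r + (k + 6)) < (VV A k B).card} : Set (List Pt)).ncard with hx
  have h2 : (4096 * 4 ^ k) * (4 ^ r * x) ≤ (4096 * 4 ^ k) * (LS n).ncard := by
    calc (4096 * 4 ^ k) * (4 ^ r * x) = 4 ^ (r + (k + 6)) * x := by rw [pow_add, pow_add]; ring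
      _ ≤ 1152 * k * (LS n).ncard := h
      _ ≤ (4096 * 4 ^ k) * (LS n).ncard := by
          refine Nat.mul_le_mul_right _ ?_
          omega
  exact Nat.le_of_mul_le_mul_left h2 (by positivity)

end Pool.Agent.U126.NC
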