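import Pool.Agent.W840.CT.Loc
import Pool.Agent.W840.CT.Map

/-! # Existence of a surgery at a free site which is not surrounded by the walk -/

set_option autoImplicit false

namespace Pool.Agent.U126.NC

open Pool.Agent.W840.CT

theorem near_add {p f : Pt} (h : Un f) : |(p + f).1 - p.1| ≤ 2 ∧ |(p + f).2 - p.2| ≤ 2 := by
  have hf := un_bound h
  have e1 : (p + f).1 - p.1 = f.1 := by simp
  have e2 : (p + f).2 - p.2 = f.2 := by simp
  rw [e1, e2]
  have := abs_nonneg f.1
  have := abs_nonneg f.2
  omega

theorem P4.ne {s g : Pt} (us : Un s) (ug : Un g) (h4 : P4 s g) : s ≠ g ∧ s ≠ -g := by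
  have h1 := h4 (1, 0) (by simp [Un])
  have h2 := h4 (0, 1) (by simp [Un])
  rcases us with h | h | h | h <;> rcases ug with h' | h' | h' | h' <;> subst h <;> subst h' <;>
    first
    | (exfalso; revert h1 h2; decide)
    | decide

theorem P4.bd {s g : Pt} (us : Un s) (ug : Un g) (h4 : P4 s g) :
    |s.1 + g.1| ≤ 1 ∧ |s.2 + g.2| ≤ 1 := by
  have h1 := h4 (1, 0) (by simp [Un])
  have h2 := h4 (0, 1) (by simp [Un])
  rcases us with h | h | h | h <;> rcases ug with h' | h' | h' | h' <;> subst h <;> subst h' <;>
    first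
    | (exfalso; revert h1 h2; decide)
    | decide

theorem P4.rot {s g : Pt} (h4 : P4 s g) : P4 g (-s) := by
  intro δ hδ
  rcases h4 δ hδ with h | h | h | h
  · right; right; right; rw [h, neg_neg]
  · right; right; left; exact h
  · left; exact h
  · right; left; exact h

/-- one step around the site `p`: a surgery exists, or the next neighbour of `p` is on the walk and
its edge goes on in the same sense of rotation -/
theorem step {B : List Pt} (hB : B.IsChain adj) (hn : B.Nodup) {p s g : Pt} (hpB : p ∉ B)
    (us : Un s) (ug : Un g) (h4 : P4 s g) (hnb : Nb B (p + s) (p + s + g))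
    (hint : ∀ u ∈ B, |u.1 - p.1| ≤ 2 → |u.2 - p.2| ≤ 2 → ∃ z w, Con B z u ∧ Con B u w) :
    (∃ κ x L, Surg B p κ x L) ∨ (p + g ∈ B ∧ Nb B (p + g) (p + g + -s)) := by
  by_cases hq : p + g ∈ B
  · obtain ⟨z, w, hz, hw⟩ := hint _ hq (near_add ug).1 (near_add ug).2
    by_cases hf : Nb B (p + g) (p + s + g)
    · left
      obtain ⟨e1, e2⟩ := P4.ne us ug h4
      have hab : p + s ≠ p + g := fun h => e1 (add_left_cancel h)
      obtain ⟨L, hL⟩ := surg_flip (x := p + s + g) hn hnb hf.symm hab hpB (adj_add us)
        (adj_add ug) (by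
          have e : (p + s + g).1 - p.1 = s.1 + g.1 := by simp; ring
          rw [e]
          exact (P4.bd us ug h4).1) (by
          have e : (p + s + g).2 - p.2 = s.2 + g.2 := by simp; ring
          rw [e]
          exact (P4.bd us ug h4).2)
      exact ⟨_, _, L, hL⟩
    · right
      refine ⟨hq, ?_⟩
      have e : p + g - g = p := by abel
      have hz' : z ≠ p + g - g := by
        rw [e]
        rintro rfl
        exact hpB hz.mem_left
      have hw' : w ≠ p + g - g := by
        rw [e]
        rintro rfl
        exact hpB hw.mem_right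
      have h4' : P4 g s := by
        intro δ hδ
        rcases h4 δ hδ with h | h | h | h
        · exact Or.inr (Or.inr (Or.inl h))
        · exact Or.inr (Or.inr (Or.inr h))
        · exact Or.inl h
        · exact Or.inr (Or.inl h)
      rcases side hB hn h4' hz hw hz' hw' with h | h
      · exact absurd (by rw [show p + s + g = p + g + s by abel]; exact h) hf
      · rw [← sub_eq_add_neg]; exact h
  · left
    obtain ⟨x, L, hL⟩ := surg_det hB hn hnb hpB hq ug (adj_add us) (by
      rw [show p + s + g = p + g + s by abel]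
      exact adj_add us)
    exact ⟨_, x, L, hL⟩

/-- **Local surgery.** A site `p` outside the walk which has a neighbour on the walk and a neighbour
outside the walk can be reached by a local change of the walk. -/
theorem loc2 {B : List Pt} (hB : B.IsChain adj) (hn : B.Nodup) {p p' v : Pt} (hpB : p ∉ B)
    (hv : v ∈ B) (av : adj p v) (hp' : p' ∉ B) (ap : adj p p')
    (hint : ∀ u ∈ B, |u.1 - p.1| ≤ 2 → |u.2 - p.2| ≤ 2 → ∃ z w, Con B z u ∧ Con B u w) :
    ∃ κ x L, Surg B p κ x L := by
  have us : Un (v - p) := adj_iff.1 av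
  obtain ⟨s, hs⟩ : ∃ s, s = v - p := ⟨_, rfl⟩
  have ev : v = p + s := by rw [hs]; abel
  rw [← hs] at us
  obtain ⟨g0, ug0, h40⟩ := exists_perp us
  -- the direction `g`
  obtain ⟨g, ug, h4, hnb⟩ : ∃ g, Un g ∧ P4 s g ∧ Nb B (p + s) (p + s + g) := by
    obtain ⟨z, w, hz, hw⟩ := hint v hv (by rw [ev]; exact (near_add us).1)
      (by rw [ev]; exact (near_add us).2)
    rw [ev] at hz hw
    have e : p + s - s = p := by abel
    have hz' : z ≠ p + s - s := by
      rw [e]
      rintro rfl
      exact hpB hz.mem_left
    have hw' : w ≠ p + s - s := by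
      rw [e]
      rintro rfl
      exact hpB hw.mem_right
    rcases side hB hn h40 hz hw hz' hw' with h | h
    · exact ⟨g0, ug0, h40, h⟩
    · refine ⟨-g0, un_neg ug0, fun δ hδ => ?_, by rw [← sub_eq_add_neg]; exact h⟩
      rcases h40 δ hδ with h | h | h | h
      · exact Or.inl h
      · exact Or.inr (Or.inl h)
      · right; right; right; rw [h, neg_neg]
      · right; right; left; exact h
  rcases step hB hn hpB us ug h4 hnb hint with h | ⟨h1, n1⟩
  · exact h
  rcases step hB hn hpB ug (un_neg us) (P4.rot h4) n1 hint with h | ⟨h2, n2⟩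
  · exact h
  rcases step hB hn hpB (un_neg us) (un_neg ug) (P4.rot (P4.rot h4)) n2 hint with h | ⟨h3, n3⟩
  · exact h
  exfalso
  apply hp'
  have e : p' = p + (p' - p) := by abel
  rcases h4 _ (adj_iff.1 ap) with h | h | h | h
  · rw [e, h, ← ev]; exact hv
  · rw [e, h]; exact h2
  · rw [e, h]; exact h1
  · rw [e, h]; exact h3

end Pool.Agent.U126.NC
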