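import Pool.Agent.U126.NC.Gen

/-! # Two disjoint walks are seldom close -/

set_option autoImplicit false

namespace Pool.Agent.U126.NC

open scoped Classical
open Pool.Agent.W840.CT

/-- pairs of times `i, j ≥ 1` with the two sites within distance `k` -/
noncomputable def CK (k : ℕ) {n m : ℕ} (w : Fin (n + 1) → ℤ × ℤ) (w' : Fin (m + 1) → ℤ × ℤ) : ℕ :=
  ((Finset.univ : Finset (Fin (n + 1) × Fin (m + 1))).filter
    (fun q => q.1 ≠ 0 ∧ q.2 ≠ 0 ∧ nr k (w q.1) (w' q.2))).card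

theorem CK_le (k : ℕ) {n m : ℕ} {w : Fin (n + 1) → ℤ × ℤ} {w' : Fin (m + 1) → ℤ × ℤ}
    (h : SW n w) (h' : SW m w') :
    CK k w w' ≤ (2 * k + 1) ^ 2 * (VV {x | x ∈ li w} k (li w')).card := by
  unfold CK
  set S := (Finset.univ : Finset (Fin (n + 1) × Fin (m + 1))).filter
    (fun q => q.1 ≠ 0 ∧ q.2 ≠ 0 ∧ nr k (w q.1) (w' q.2)) with hS
  set f : Fin (n + 1) × Fin (m + 1) → Pt := fun q => w' q.2 with hf
  have h1 : S.card ≤ (2 * k + 1) ^ 2 * (S.image f).card := by
    refine Finset.card_le_mul_card_image S _ (fun a _ => ?_)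
    rw [← ball_card k]
    refine Finset.card_le_card_of_injOn (fun q => w q.1 - w' q.2) ?_ ?_
    · rintro ⟨i, j⟩ hq
      simp only [hS, Finset.coe_filter, Finset.mem_filter, Finset.mem_univ, true_and,
        Set.mem_ofPred_eq] at hq
      obtain ⟨⟨-, -, h3⟩, -⟩ := hq
      unfold nr at h3
      rw [Finset.mem_coe, Finset.mem_product, Finset.mem_Icc, Finset.mem_Icc]
      simp only [Prod.fst_sub, Prod.snd_sub]
      have e1 := abs_nonneg ((w' j).1 - (w i).1)
      have e2 := abs_nonneg ((w' j).2 - (w i).2)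
      have e3 : |(w' j).1 - (w i).1| ≤ k := by omega
      have e4 : |(w' j).2 - (w i).2| ≤ k := by omega
      rw [abs_le] at e3 e4
      omega
    · rintro ⟨i, j⟩ hq ⟨i', j'⟩ hq' h4
      simp only [hS, hf, Finset.coe_filter, Finset.mem_filter, Finset.mem_univ, true_and,
        Set.mem_ofPred_eq] at hq hq' h4
      have e2 := h'.2.2 (hq.2.trans hq'.2.symm)
      subst e2
      have e3 := h.2.2 (sub_left_injective h4)
      rw [e3]
  have h2 : S.image f ⊆ VV {x | x ∈ li w} k (li w') := by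
    intro v hv
    rw [Finset.mem_image] at hv
    obtain ⟨⟨i, j⟩, hq, rfl⟩ := hv
    simp only [hS, Finset.mem_filter, Finset.mem_univ, true_and] at hq
    obtain ⟨a1, a2, a3⟩ := hq
    unfold VV
    rw [Finset.mem_filter, List.mem_toFinset]
    refine ⟨?_, w i, ?_, a3⟩
    · simp only [hf]
      unfold li
      rw [List.mem_map]
      exact ⟨j.1, List.mem_range.2 j.2, ex_val w' j⟩
    · show w i ∈ li w
      unfold li
      rw [List.mem_map]
      exact ⟨i.1, List.mem_range.2 i.2, ex_val w i⟩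
  exact h1.trans (Nat.mul_le_mul_left _ (Finset.card_le_card h2))

theorem pair_tail (k n m r : ℕ) :
    4 ^ r * ({q | SW n q.1 ∧ SW m q.2 ∧ DJ q.1 q.2 ∧ GG k * (r + 1) ≤ CK k q.1 q.2} :
      Set ((Fin (n + 1) → ℤ × ℤ) × (Fin (m + 1) → ℤ × ℤ))).ncard ≤ cn n * cn m := by
  have h1 : ({q | SW n q.1 ∧ SW m q.2 ∧ DJ q.1 q.2 ∧ GG k * (r + 1) ≤ CK k q.1 q.2} :
      Set ((Fin (n + 1) → ℤ × ℤ) × (Fin (m + 1) → ℤ × ℤ))).ncard ≤
      (PK k n m (DD k * (k + 7) * (r + 1))).ncard := by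
    refine Set.ncard_le_ncard_of_injOn (fun q => (li q.1, li q.2)) ?_ ?_ (PK_finite _ _ _ _)
    · rintro ⟨w, w'⟩ ⟨h1, h2, h3, h4⟩
      simp only at h1 h2 h3 h4
      refine ⟨li_mem h1, li_mem h2, ?_, ?_⟩
      · intro v hv hv'
        simp only at hv hv'
        unfold li at hv hv'
        rw [List.mem_map] at hv hv'
        obtain ⟨j, hj, rfl⟩ := hv
        obtain ⟨i, hi, hij⟩ := hv'
        rw [List.mem_range] at hi hj
        have e1 := ex_val w ⟨i, hi⟩
        have e2 := ex_val w' ⟨j, hj⟩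
        simp only at e1 e2
        have h5 := h3 ⟨i, hi⟩ ⟨j, hj⟩ (by rw [← e1, ← e2]; exact hij)
        have h6 : j = 0 := by
          have := congrArg Fin.val h5.2
          simpa using this
        rw [h6]
        exact h2.zero
      · have h5 := h4.trans (CK_le k h1 h2)
        unfold GG at h5
        rw [mul_assoc] at h5
        exact Nat.le_of_mul_le_mul_left h5 (by positivity)
    · rintro ⟨w, w'⟩ - ⟨u, u'⟩ - h
      simp only [Prod.mk.injEq] at h
      rw [Prod.mk.injEq]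
      exact ⟨li_inj h.1, li_inj h.2⟩
  calc _ ≤ 4 ^ r * (PK k n m (DD k * (k + 7) * (r + 1))).ncard := Nat.mul_le_mul_left _ h1
    _ ≤ (LS n).ncard * (LS m).ncard := PK_card _ _ _ _
    _ ≤ cn n * cn m := Nat.mul_le_mul (LS_le _) (LS_le _)

end Pool.Agent.U126.NC
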