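import Pool.Agent.U126.NC.Gen
import Pool.Agent.TH546.SG.Loops2

/-! # Windows: related pairs of times, uniformly in the length of the walk -/

set_option autoImplicit false

namespace Pool.Agent.U126.NC

open scoped Classical
open Pool.Agent.W840.CT hiding tail_all
open Pool.Agent.TH546.SAW hiding avg avg2 entropy variational transfer window_mean max_mean
  loop_mean far_mean CP LL LL_le TM TM_le_TT TM_le_window sum_TM_le FF_step FF_scales exp_moment
open Pool.Agent.TH546.SG (CU log_ge one_le_LP LP_nonneg cP one_le_cP log_mul_pow_le'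
  log_ratio_pow avg2 sP summable_sP sum_le_sP sP_nonneg)

variable {R : Pt → Pt → Prop}

/-- related pairs with lag at most `M` -/
noncomputable def CP (R : Pt → Pt → Prop) (n M : ℕ) (ω : Fin (n + 1) → ℤ × ℤ) :
    Finset (Fin (n + 1) × Fin (n + 1)) :=
  (Finset.univ : Finset (Fin (n + 1) × Fin (n + 1))).filter
    (fun q => q.1.1 + 1 < q.2.1 ∧ q.2.1 ≤ q.1.1 + M ∧ R (ω q.1) (ω q.2))

/-- the total lag of the related pairs with lag at most `M` -/
noncomputable def LL (R : Pt → Pt → Prop) (n M : ℕ) (ω : Fin (n + 1) → ℤ × ℤ) : ℕ :=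
  ∑ q ∈ CP R n M ω, (q.2.1 - q.1.1)

/-- related pairs with lag at most `M` across time `t` -/
noncomputable def TM (R : Pt → Pt → Prop) (n M t : ℕ) (ω : Fin (n + 1) → ℤ × ℤ) : ℕ :=
  ((CP R n M ω).filter (fun q => q.1.1 < t ∧ t < q.2.1)).card

/-- related pairs with lag more than `m` -/
noncomputable def FR (R : Pt → Pt → Prop) (N m : ℕ) (ω : Fin (N + 1) → ℤ × ℤ) : ℕ :=
  ((Finset.univ : Finset (Fin (N + 1) × Fin (N + 1))).filter
    (fun q => q.1.1 + m < q.2.1 ∧ R (ω q.1) (ω q.2))).card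

theorem TR_zero {N t : ℕ} (ht : N < t) (ω : Fin (N + 1) → ℤ × ℤ) : TR R N t ω = 0 := by
  unfold TR
  rw [Finset.card_eq_zero, Finset.filter_eq_empty_iff]
  rintro ⟨i, j⟩ - ⟨-, h, -⟩
  have := j.2
  simp only at h
  omega

theorem TR_le_sq (n t : ℕ) (ω : Fin (n + 1) → ℤ × ℤ) : TR R n t ω ≤ (n + 1) * (n + 1) := by
  unfold TR
  have h1 := Finset.card_filter_le (Finset.univ : Finset (Fin (n + 1) × Fin (n + 1)))
    (fun q => q.1.1 < t ∧ t < q.2.1 ∧ R (ω q.1) (ω q.2))
  rw [Finset.card_univ, Fintype.card_prod, Fintype.card_fin] at h1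
  exact h1

theorem LL_le (n M : ℕ) (ω : Fin (n + 1) → ℤ × ℤ) :
    LL R n M ω ≤ 2 * ∑ t ∈ Finset.range n, TM R n M t ω := by
  have h3 : ∑ q ∈ CP R n M ω, ((Finset.range n).filter (fun t => q.1.1 < t ∧ t < q.2.1)).card =
      ∑ t ∈ Finset.range n, TM R n M t ω := by
    unfold TM
    simp only [Finset.card_filter]
    exact Finset.sum_comm
  rw [← h3, Finset.mul_sum]
  unfold LL
  refine Finset.sum_le_sum (fun q hq => ?_)
  obtain ⟨i, j⟩ := q
  have hj := j.2
  simp only [CP, Finset.mem_filter, Finset.mem_univ, true_and] at hq ⊢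
  obtain ⟨a1, a2, a3⟩ := hq
  have h4 : j.1 - i.1 - 1 ≤ ((Finset.range n).filter (fun t => i.1 < t ∧ t < j.1)).card := by
    calc j.1 - i.1 - 1 = (Finset.Ioo i.1 j.1).card := (Nat.card_Ioo _ _).symm
      _ ≤ _ := by
          refine Finset.card_le_card ?_
          intro t ht
          rw [Finset.mem_Ioo] at ht
          rw [Finset.mem_filter, Finset.mem_range]
          omega
  omega

theorem TM_le_TR (n M t : ℕ) (ω : Fin (n + 1) → ℤ × ℤ) : TM R n M t ω ≤ TR R n t ω := by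
  unfold TM TR CP
  refine Finset.card_le_card ?_
  intro q hq
  simp only [Finset.mem_filter, Finset.mem_univ, true_and] at hq ⊢
  exact ⟨hq.2.1, hq.2.2, hq.1.2.2⟩

theorem TM_le_window (hR : TI R) {n M i : ℕ} {ω : Fin (n + 1) → ℤ × ℤ} (hi : i + 2 * M ≤ n) :
    TM R n M (i + M) ω ≤ TR R (2 * M) M (pc i (2 * M) ω) := by
  unfold TM TR
  refine Finset.card_le_card_of_injOn (fun q =>
    ((⟨min (q.1.1 - i) (2 * M), by omega⟩ : Fin (2 * M + 1)),
     (⟨min (q.2.1 - i) (2 * M), by omega⟩ : Fin (2 * M + 1)))) ?_ ?_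
  · rintro ⟨a, b⟩ hq
    simp only [CP, Finset.coe_filter, Finset.mem_filter, Finset.mem_univ, true_and,
      Set.mem_ofPred_eq] at hq ⊢
    obtain ⟨⟨a1, a2, a3⟩, a4, a5⟩ := hq
    have e1 : min (a.1 - i) (2 * M) = a.1 - i := by omega
    have e2 : min (b.1 - i) (2 * M) = b.1 - i := by omega
    refine ⟨by omega, by omega, ?_⟩
    unfold pc
    simp only [e1, e2]
    rw [hR, show i + (a.1 - i) = a.1 by omega, show i + (b.1 - i) = b.1 by omega,
      ex_val, ex_val]
    exact a3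
  · rintro ⟨a, b⟩ hq ⟨a', b'⟩ hq' h
    simp only [CP, Finset.coe_filter, Finset.mem_filter, Finset.mem_univ, true_and,
      Set.mem_ofPred_eq] at hq hq'
    simp only [Prod.mk.injEq, Fin.mk.injEq] at h ⊢
    constructor
    · apply Fin.ext
      omega
    · apply Fin.ext
      omega

/-- all the times: windows inside, and the times close to the two ends -/
theorem sum_TM_le (hR : TI R) {n M : ℕ} {ω : Fin (n + 1) → ℤ × ℤ} {J : ℝ}
    (h : ∀ t, (TR R n t ω : ℝ) ≤ J) (hM : 2 * M ≤ n) :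
    (∑ t ∈ Finset.range n, (TM R n M t ω : ℝ)) ≤
      ∑ i ∈ Finset.range (n + 1 - 2 * M), (TR R (2 * M) M (pc i (2 * M) ω) : ℝ) +
        2 * M * J := by
  have hJ : 0 ≤ J := (Nat.cast_nonneg _).trans (h 0)
  have hTM : ∀ t, (TM R n M t ω : ℝ) ≤ J := fun t =>
    (Nat.cast_le.2 (TM_le_TR n M t ω)).trans (h t)
  have h1 : ∑ t ∈ Finset.range n, (TM R n M t ω : ℝ) ≤
      ∑ t ∈ Finset.range (M + ((n + 1 - 2 * M) + M)), (TM R n M t ω : ℝ) := by
    refine Finset.sum_le_sum_of_subset_of_nonneg ?_ (fun _ _ _ => Nat.cast_nonneg _)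
    intro t ht
    rw [Finset.mem_range] at ht ⊢
    omega
  refine h1.trans ?_
  rw [Finset.sum_range_add, Finset.sum_range_add]
  have h2 : ∑ t ∈ Finset.range M, (TM R n M t ω : ℝ) ≤ M * J := by
    have := Finset.sum_le_sum (s := Finset.range M) (fun t _ => hTM t)
    rwa [Finset.sum_const, Finset.card_range, nsmul_eq_mul] at this
  have h3 : ∑ t ∈ Finset.range M, (TM R n M (M + (n + 1 - 2 * M + t)) ω : ℝ) ≤ M * J := by
    have := Finset.sum_le_sum (s := Finset.range M)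
      (fun t _ => hTM (M + (n + 1 - 2 * M + t)))
    rwa [Finset.sum_const, Finset.card_range, nsmul_eq_mul] at this
  have h4 : ∑ i ∈ Finset.range (n + 1 - 2 * M), (TM R n M (M + i) ω : ℝ) ≤
      ∑ i ∈ Finset.range (n + 1 - 2 * M), (TR R (2 * M) M (pc i (2 * M) ω) : ℝ) := by
    refine Finset.sum_le_sum (fun i hi => ?_)
    rw [Finset.mem_range] at hi
    rw [add_comm M i]
    exact_mod_cast TM_le_window hR (by omega)
  linarith

/-- exponential moment of the number of related pairs across the middle -/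
theorem exp_moment {G : ℕ} (hG : 1 ≤ G) (hT : Tail R G) (s : ℕ) :
    ∑ v ∈ W (2 * s), (2 : ℝ) ^ (TR R (2 * s) s v / G) ≤ 5 * (cn s : ℝ) ^ 2 := by
  set N := (2 * s + 1) * (2 * s + 1) + 1 with hN
  have hTT : ∀ v : Fin (2 * s + 1) → ℤ × ℤ, TR R (2 * s) s v < N := by
    intro v
    have := TR_le_sq (R := R) (2 * s) s v
    omega
  have h1 : ∀ v ∈ W (2 * s), (2 : ℝ) ^ (TR R (2 * s) s v / G) ≤
      (∑ r ∈ Finset.range N, if G * (r + 1) ≤ TR R (2 * s) s v then (2 : ℝ) ^ (r + 1) else 0)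
        + 1 := by
    intro v _
    set x := TR R (2 * s) s v with hx
    have hxR := hTT v
    rw [← hx] at hxR
    have hnn : ∀ r ∈ Finset.range N, (0 : ℝ) ≤
        if G * (r + 1) ≤ x then (2 : ℝ) ^ (r + 1) else 0 := by
      intro r _
      split_ifs
      · positivity
      · exact le_rfl
    rcases Nat.lt_or_ge x G with h2 | h2
    · rw [Nat.div_eq_of_lt h2, pow_zero]
      have := Finset.sum_nonneg hnn
      linarith
    · obtain ⟨r, hr⟩ : ∃ r, x / G = r + 1 := ⟨x / G - 1, by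
        have : 1 ≤ x / G := (Nat.one_le_div_iff (by omega)).2 h2
        omega⟩
      have h3 : G * (r + 1) ≤ x := by
        rw [← hr]
        exact Nat.mul_div_le x G
      have h4 : r ∈ Finset.range N := by
        rw [Finset.mem_range]
        have : 1 * (r + 1) ≤ G * (r + 1) := Nat.mul_le_mul_right _ hG
        omega
      have h5 := Finset.single_le_sum hnn h4
      rw [if_pos h3] at h5
      rw [hr]
      linarith
  refine (Finset.sum_le_sum h1).trans ?_
  rw [Finset.sum_add_distrib, Finset.sum_comm]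
  simp only [Finset.sum_const, nsmul_eq_mul, mul_one]
  rw [card_W]
  have h2 : ∀ r ∈ Finset.range N, ∑ v ∈ W (2 * s),
      (if G * (r + 1) ≤ TR R (2 * s) s v then (2 : ℝ) ^ (r + 1) else 0) ≤
      2 * (cn s : ℝ) ^ 2 * (1 / 2) ^ r := by
    intro r _
    rw [← Finset.sum_filter, Finset.sum_const, nsmul_eq_mul, card_filter_W]
    have h3 := hT (2 * s) s r (by omega)
    rw [show 2 * s - s = s by omega] at h3
    have h4 : (4 : ℝ) ^ r * (({ω | SW (2 * s) ω ∧ G * (r + 1) ≤ TR R (2 * s) s ω} :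
      Set (Fin (2 * s + 1) → ℤ × ℤ)).ncard : ℝ) ≤ (cn s : ℝ) * cn s := by
      exact_mod_cast h3
    set X := (({ω | SW (2 * s) ω ∧ G * (r + 1) ≤ TR R (2 * s) s ω} :
      Set (Fin (2 * s + 1) → ℤ × ℤ)).ncard : ℝ) with hX
    have e : (4 : ℝ) ^ r = 2 ^ r * 2 ^ r := by rw [← mul_pow]; norm_num
    have h5 : X * 2 ^ (r + 1) = 2 * ((4 ^ r * X) * (1 / 2) ^ r) := by
      rw [e, pow_succ]
      have : (2 : ℝ) ^ r * (1 / 2) ^ r = 1 := by rw [← mul_pow]; norm_num
      calc X * (2 ^ r * 2) = 2 * (2 ^ r * X * 1) := by ring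
        _ = 2 * (2 ^ r * X * ((2 : ℝ) ^ r * (1 / 2) ^ r)) := by rw [this]
        _ = _ := by ring
    rw [h5]
    have h6 : (4 : ℝ) ^ r * X ≤ (cn s : ℝ) ^ 2 := by
      rw [sq]; exact h4
    have h7 := mul_le_mul_of_nonneg_right h6 (show (0 : ℝ) ≤ (1 / 2) ^ r by positivity)
    linarith
  have h3 := Finset.sum_le_sum h2
  rw [← Finset.mul_sum] at h3
  have h4 : ∑ r ∈ Finset.range N, (1 / 2 : ℝ) ^ r ≤ 2 := by
    have := geom_sum_eq (show (1 / 2 : ℝ) ≠ 1 by norm_num) N
    rw [this]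
    have h5 : (0 : ℝ) ≤ (1 / 2) ^ N := by positivity
    have e : ((1 / 2 : ℝ) ^ N - 1) / (1 / 2 - 1) = 2 - 2 * (1 / 2) ^ N := by
      field_simp
      ring
    rw [e]
    linarith
  have h5 : 2 * (cn s : ℝ) ^ 2 * ∑ r ∈ Finset.range N, (1 / 2 : ℝ) ^ r ≤
      2 * (cn s : ℝ) ^ 2 * 2 := mul_le_mul_of_nonneg_left h4 (by positivity)
  have h6 : (cn (2 * s) : ℝ) ≤ (cn s : ℝ) ^ 2 := by
    have := cn_add_le s s
    rw [show s + s = 2 * s by ring] at this
    rw [sq]
    exact this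
  linarith

/-- tail of the maximum over the times, the constant is linear in `G` -/
theorem tail_all {p : ℕ} (hp : 1 ≤ p) (hcu : CU p) : ∃ K : ℝ, 0 < K ∧
    ∀ R : Pt → Pt → Prop, ∀ G : ℕ, 1 ≤ G → Tail R G → ∀ N : ℕ, 2 ≤ N → ∀ x : ℝ, 0 ≤ x →
    (({ω | SW N ω ∧ ∃ t, K * G * (Real.log N ^ p + x) < TR R N t ω} :
      Set (Fin (N + 1) → ℤ × ℤ)).ncard : ℝ) ≤ Real.exp (-x) * cn N := by
  obtain ⟨K, hK, h⟩ := hcu
  refine ⟨12 * (3 / 2) ^ p + 2 * K + 1, by positivity, fun R G hG hT N hN x hx => ?_⟩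
  have hG' : (1 : ℝ) ≤ G := by exact_mod_cast hG
  set L := Real.log N with hL
  set E : ℝ := (3 / 2) ^ p with hE
  have hE1 : 1 ≤ E := one_le_pow₀ (by norm_num)
  have hN' : (2 : ℝ) ≤ N := by exact_mod_cast hN
  have hlogN : (0.69 : ℝ) < L := log_ge hN
  have hLP0 : (0 : ℝ) ≤ L ^ p := by positivity
  have hone1 : (1 : ℝ) ≤ E * L ^ p := one_le_LP p hN
  have hLL : L ≤ E * L ^ p := by
    rw [hE, ← mul_pow]
    have h1 : (1 : ℝ) ≤ 3 / 2 * L := by linarith
    calc L ≤ 3 / 2 * L := by linarith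
      _ = (3 / 2 * L) ^ 1 := (pow_one _).symm
      _ ≤ (3 / 2 * L) ^ p := pow_le_pow_right₀ h1 hp
  have hlogA : Real.log ((N : ℝ) + 1) ≤ 2 * (E * L ^ p) := by
    have h2 : Real.log ((N : ℝ) + 1) ≤ 2 * L := by
      calc Real.log ((N : ℝ) + 1) ≤ Real.log ((N : ℝ) ^ 2) :=
            Real.log_le_log (by positivity) (by nlinarith)
        _ = 2 * L := by rw [Real.log_pow, hL]; norm_num
    linarith
  set y := x + Real.log ((N : ℝ) + 1) + 2 * (K * L ^ p) with hy
  set r := ⌈y⌉₊ with hr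
  have hy0 : 0 ≤ y := by
    have : 0 ≤ Real.log ((N : ℝ) + 1) := Real.log_nonneg (by linarith)
    positivity
  have hr1 : (r : ℝ) ≤ y + 1 := (Nat.ceil_lt_add_one hy0).le
  have hr2 : y ≤ r := Nat.le_ceil _
  have hthr : (G : ℝ) * (r + 1) ≤ (12 * E + 2 * K + 1) * G * (L ^ p + x) := by
    have h1 : (r : ℝ) + 1 ≤ x + 2 * (E * L ^ p) + 2 * (K * L ^ p) + 2 := by linarith
    have h2 : (0 : ℝ) ≤ K * x := by positivity
    have h3 : (0 : ℝ) ≤ K * L ^ p := by positivity
    have h4 : (0 : ℝ) ≤ E * x := by positivity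
    have h5 : (12 * E + 2 * K + 1) * G * (L ^ p + x) = G * (12 * (E * L ^ p) +
      2 * (K * L ^ p) + L ^ p + 12 * (E * x) + 2 * (K * x) + x) := by ring
    rw [h5]
    refine mul_le_mul_of_nonneg_left ?_ (by linarith)
    linarith
  -- the union bound
  have hone : ∀ t ∈ Finset.range (N + 1),
      (({ω | SW N ω ∧ G * (r + 1) ≤ TR R N t ω} :
        Set (Fin (N + 1) → ℤ × ℤ)).ncard : ℝ) ≤
      Real.exp (-(r : ℝ)) * (Real.exp (2 * (K * L ^ p)) * cn N) := by
    intro t ht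
    rw [Finset.mem_range] at ht
    have h1 := hT N t r (by omega)
    have h2 : (4 : ℝ) ^ r * (({ω | SW N ω ∧ G * (r + 1) ≤ TR R N t ω} :
        Set (Fin (N + 1) → ℤ × ℤ)).ncard : ℝ) ≤ (cn t : ℝ) * cn (N - t) := by
      exact_mod_cast h1
    have h3 := h N hN t (by omega)
    have h4 := h N hN (N - t) (by omega)
    have h5 : (cn t : ℝ) * cn (N - t) ≤ Real.exp (2 * (K * L ^ p)) * cn N := by
      calc (cn t : ℝ) * cn (N - t) ≤ (H981.mu ^ t * Real.exp (K * L ^ p)) *
            (H981.mu ^ (N - t) * Real.exp (K * L ^ p)) := by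
              refine mul_le_mul h3 h4 (by positivity) ?_
              have := mu_pos
              positivity
        _ = Real.exp (2 * (K * L ^ p)) * H981.mu ^ (t + (N - t)) := by
            rw [two_mul, Real.exp_add, pow_add]; ring
        _ = Real.exp (2 * (K * L ^ p)) * H981.mu ^ N := by
            rw [show t + (N - t) = N by omega]
        _ ≤ _ := mul_le_mul_of_nonneg_left (mu_pow_le_cn N) (Real.exp_pos _).le
    have h6 := four_pow_ge r
    have h7 : Real.exp r * (({ω | SW N ω ∧ G * (r + 1) ≤ TR R N t ω} :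
        Set (Fin (N + 1) → ℤ × ℤ)).ncard : ℝ) ≤
        Real.exp (2 * (K * L ^ p)) * cn N := by
      calc _ ≤ (4 : ℝ) ^ r * (({ω | SW N ω ∧ G * (r + 1) ≤ TR R N t ω} :
            Set (Fin (N + 1) → ℤ × ℤ)).ncard : ℝ) :=
              mul_le_mul_of_nonneg_right h6 (Nat.cast_nonneg _)
        _ ≤ (cn t : ℝ) * cn (N - t) := h2
        _ ≤ _ := h5
    calc (({ω | SW N ω ∧ G * (r + 1) ≤ TR R N t ω} :
        Set (Fin (N + 1) → ℤ × ℤ)).ncard : ℝ)
        = Real.exp (-(r : ℝ)) * (Real.exp r * (({ω | SW N ω ∧ G * (r + 1) ≤ TR R N t ω} :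
          Set (Fin (N + 1) → ℤ × ℤ)).ncard : ℝ)) := by
          rw [← mul_assoc, ← Real.exp_add, neg_add_cancel, Real.exp_zero, one_mul]
      _ ≤ _ := mul_le_mul_of_nonneg_left h7 (Real.exp_pos _).le
  have hsub : ({ω | SW N ω ∧ ∃ t, (12 * E + 2 * K + 1) * G * (L ^ p + x) < TR R N t ω} :
      Set (Fin (N + 1) → ℤ × ℤ)) ⊆
      ((Finset.range (N + 1)).biUnion (fun t =>
        ((SW_finite N).subset (fun ω (hω : ω ∈ ({ω | SW N ω ∧ G * (r + 1) ≤ TR R N t ω} :
          Set (Fin (N + 1) → ℤ × ℤ))) => hω.1)).toFinset) :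
        Finset (Fin (N + 1) → ℤ × ℤ)) := by
    rintro ω ⟨h1, t, ht⟩
    rw [Finset.mem_coe, Finset.mem_biUnion]
    have htN : t ≤ N := by
      by_contra hcon
      rw [TR_zero (by omega) ω, Nat.cast_zero] at ht
      have : 0 ≤ (12 * E + 2 * K + 1) * G * (L ^ p + x) := by positivity
      linarith
    refine ⟨t, Finset.mem_range.2 (by omega), ?_⟩
    rw [Set.Finite.mem_toFinset]
    refine ⟨h1, ?_⟩
    have h2 : ((G * (r + 1) : ℕ) : ℝ) ≤ (TR R N t ω : ℝ) := by
      push_cast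
      exact hthr.trans ht.le
    exact_mod_cast h2
  have hle : (({ω | SW N ω ∧ ∃ t, (12 * E + 2 * K + 1) * G * (L ^ p + x) < TR R N t ω} :
      Set (Fin (N + 1) → ℤ × ℤ)).ncard : ℝ) ≤ ∑ t ∈ Finset.range (N + 1),
      (({ω | SW N ω ∧ G * (r + 1) ≤ TR R N t ω} :
        Set (Fin (N + 1) → ℤ × ℤ)).ncard : ℝ) := by
    have h1 := (Set.ncard_le_ncard hsub (Finset.finite_toSet _))
    rw [Set.ncard_coe_finset] at h1
    have h2 := h1.trans Finset.card_biUnion_le
    have h3 : ∀ t ∈ Finset.range (N + 1), (((SW_finite N).subset (fun ω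
        (hω : ω ∈ ({ω | SW N ω ∧ G * (r + 1) ≤ TR R N t ω} :
          Set (Fin (N + 1) → ℤ × ℤ))) => hω.1)).toFinset).card =
        ({ω | SW N ω ∧ G * (r + 1) ≤ TR R N t ω} :
        Set (Fin (N + 1) → ℤ × ℤ)).ncard := by
      intro t _
      exact (Set.ncard_eq_toFinset_card _ _).symm
    rw [Finset.sum_congr rfl h3] at h2
    exact_mod_cast h2
  refine hle.trans ((Finset.sum_le_sum hone).trans ?_)
  rw [Finset.sum_const, Finset.card_range, nsmul_eq_mul]
  push_cast
  have h8 : Real.exp (-(r : ℝ)) ≤ Real.exp (-y) := Real.exp_le_exp.2 (by linarith)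
  have h9 : Real.exp (-y) = Real.exp (-x) * ((N : ℝ) + 1)⁻¹ *
      Real.exp (-(2 * (K * L ^ p))) := by
    rw [hy, neg_add, neg_add, Real.exp_add, Real.exp_add, Real.exp_neg (Real.log _),
      Real.exp_log (by positivity)]
  have hcn := cn_pos N
  calc ((N : ℝ) + 1) * (Real.exp (-(r : ℝ)) * (Real.exp (2 * (K * L ^ p)) * cn N))
      ≤ ((N : ℝ) + 1) * (Real.exp (-y) * (Real.exp (2 * (K * L ^ p)) * cn N)) := by
        gcongr
    _ = Real.exp (-x) * (Real.exp (-(2 * (K * L ^ p))) * Real.exp (2 * (K * L ^ p))) *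
        (((N : ℝ) + 1)⁻¹ * ((N : ℝ) + 1)) * cn N := by
        rw [h9]; ring
    _ = Real.exp (-x) * cn N := by
        rw [← Real.exp_add, neg_add_cancel, Real.exp_zero, inv_mul_cancel₀ (by positivity)]
        ring

/-- related pairs across the middle of the windows -/
theorem window_mean {p : ℕ} (hp : 1 ≤ p) (hcu : CU p) : ∃ K : ℝ, 0 ≤ K ∧
    ∀ R : Pt → Pt → Prop, ∀ G : ℕ, 1 ≤ G → Tail R G → ∀ s n : ℕ, 2 ≤ s → 2 * s ≤ n →
    ∑ i ∈ Finset.range (n + 1 - 2 * s), ∑ ω ∈ W n, (TR R (2 * s) s (pc i (2 * s) ω) : ℝ) ≤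
      cn n * (K * G * n * Real.log s ^ p) := by
  obtain ⟨K, hK, h⟩ := avg2 hcu
  obtain ⟨K', hK', hu⟩ := hcu
  have hcP := one_le_cP p
  set E : ℝ := (3 / 2) ^ p with hE
  have hE0 : 0 ≤ E := by positivity
  refine ⟨5 * E + 4 * K' + 4 * (K * cP p), by positivity, fun R G hG hT s n hs hn => ?_⟩
  have hG' : (1 : ℝ) ≤ G := by exact_mod_cast hG
  have hone1 := one_le_LP p hs
  rw [← hE] at hone1
  have hLP0 := LP_nonneg p s
  have hs' : (2 : ℝ) ≤ s := by exact_mod_cast hs
  have hmu := mu_pos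
  have hcn : (0 : ℝ) < cn n := lt_of_lt_of_le one_pos (cn_pos n)
  have hc2 : (0 : ℝ) < cn s := lt_of_lt_of_le one_pos (cn_pos _)
  have hL4 : Real.log ((2 * s : ℕ) : ℝ) ^ p ≤ 2 * cP p * Real.log s ^ p := by
    have := log_mul_pow_le' hp (m := s) (j := 2) hs (by norm_num)
    push_cast at this ⊢
    linarith
  have hlogc : Real.log (cn s) ≤ s * Real.log H981.mu + K' * Real.log s ^ p := by
    have h4 := Real.log_le_log hc2 (hu s hs s le_rfl)
    rw [Real.log_mul (by positivity) (Real.exp_pos _).ne', Real.log_exp, Real.log_pow] at h4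
    exact h4
  have h3 := h (2 * s) n (by omega) hn
    (fun _ v => (2 : ℝ) ^ (TR R (2 * s) s v / G))
    (fun i v => by positivity) (fun i hi ω hω => by positivity)
    (2 + 2 * K' * Real.log s ^ p) (by positivity) (by
      intro i hi
      have h5 : 0 < ∑ v ∈ W (2 * s), (2 : ℝ) ^ (TR R (2 * s) s v / G) :=
        Finset.sum_pos (fun v _ => by positivity) (W_nonempty _)
      have h6 := Real.log_le_log h5 (exp_moment hG hT s)
      rw [Real.log_mul (by norm_num) (by positivity), Real.log_pow] at h6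
      have h7 : Real.log 5 ≤ 2 := by
        calc Real.log 5 ≤ Real.log (2 ^ 2 * (5 / 4)) := Real.log_le_log (by norm_num) (by norm_num)
          _ = 2 * Real.log 2 + Real.log (5 / 4) := by
              rw [Real.log_mul (by norm_num) (by norm_num), Real.log_pow]; norm_num
          _ ≤ 2 := by
              have := log_two_bd.2
              have h8 := Real.log_le_sub_one_of_pos (show (0 : ℝ) < 5 / 4 by norm_num)
              linarith
      have e4 : ((2 * s : ℕ) : ℝ) * Real.log H981.mu = 2 * (s * Real.log H981.mu) := by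
        push_cast; ring
      have e2 : (((2 : ℕ)) : ℝ) = 2 := by norm_num
      rw [e2] at h6
      rw [e4]
      linarith)
  set X := fun i ω => TR R (2 * s) s (pc (n := n) i (2 * s) ω) / G with hX
  have hl2 := log_two_bd.1
  have h8 : ∀ i ω, (TR R (2 * s) s (pc (n := n) i (2 * s) ω) : ℝ) ≤
      G / Real.log 2 * Real.log ((2 : ℝ) ^ X i ω) + G := by
    intro i ω
    rw [Real.log_pow]
    have e : (G : ℝ) / Real.log 2 * (X i ω * Real.log 2) = G * (X i ω : ℝ) := by
      field_simp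
    rw [e]
    have h9 : TR R (2 * s) s (pc (n := n) i (2 * s) ω) ≤ G * X i ω + G := by
      rw [hX]
      simp only
      set y := TR R (2 * s) s (pc (n := n) i (2 * s) ω)
      have := Nat.lt_mul_div_succ y (show 0 < G by omega)
      rw [mul_add, mul_one] at this
      exact this.le
    exact_mod_cast h9
  have h11 : ∑ i ∈ Finset.range (n + 1 - 2 * s), ∑ ω ∈ W n,
        (TR R (2 * s) s (pc i (2 * s) ω) : ℝ) ≤
      G / Real.log 2 * ∑ i ∈ Finset.range (n + 1 - 2 * s), ∑ ω ∈ W n,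
        Real.log ((2 : ℝ) ^ X i ω) + n * (cn n * G) := by
    calc _ ≤ ∑ i ∈ Finset.range (n + 1 - 2 * s), ∑ ω ∈ W n,
          (G / Real.log 2 * Real.log ((2 : ℝ) ^ X i ω) + G) :=
          Finset.sum_le_sum (fun i _ => Finset.sum_le_sum (fun ω _ => h8 i ω))
      _ = G / Real.log 2 * ∑ i ∈ Finset.range (n + 1 - 2 * s), ∑ ω ∈ W n,
        Real.log ((2 : ℝ) ^ X i ω) + ((n + 1 - 2 * s : ℕ) : ℝ) * (cn n * G) := by
          simp only [Finset.sum_add_distrib, ← Finset.mul_sum, Finset.sum_const, nsmul_eq_mul,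
            Finset.card_range, card_W]
          ring
      _ ≤ _ := by
          have : (((n + 1 - 2 * s : ℕ)) : ℝ) ≤ n := by
            exact_mod_cast (show n + 1 - 2 * s ≤ n by omega)
          gcongr
  refine h11.trans ?_
  have h13 : G / Real.log 2 * ∑ i ∈ Finset.range (n + 1 - 2 * s), ∑ ω ∈ W n,
        Real.log ((2 : ℝ) ^ X i ω) ≤ G / Real.log 2 * (cn n * (n * (2 + 2 * K' *
        Real.log s ^ p + K * Real.log ((2 * s : ℕ) : ℝ) ^ p))) :=
    mul_le_mul_of_nonneg_left h3 (by positivity)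
  refine (add_le_add_left h13 _).trans ?_
  have h14 : G / Real.log 2 ≤ G * 1.5 := by
    rw [div_le_iff₀ (by linarith)]
    nlinarith
  have h15 : 2 + 2 * K' * Real.log s ^ p + K * Real.log ((2 * s : ℕ) : ℝ) ^ p ≤
      (2 * E + 2 * K' + 2 * (K * cP p)) * Real.log s ^ p := by
    have e2 := mul_le_mul_of_nonneg_left hL4 hK
    have e5 : (2 * E + 2 * K' + 2 * (K * cP p)) * Real.log s ^ p = 2 * (E * Real.log s ^ p) +
      2 * K' * Real.log s ^ p + K * (2 * cP p * Real.log s ^ p) := by ring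
    rw [e5]
    linarith
  calc G / Real.log 2 * (cn n * (n * (2 + 2 * K' *
        Real.log s ^ p + K * Real.log ((2 * s : ℕ) : ℝ) ^ p))) +
        n * (cn n * G)
      ≤ G * 1.5 * (cn n * (n * ((2 * E + 2 * K' + 2 * (K * cP p)) * Real.log s ^ p))) +
        n * (cn n * (G * (E * Real.log s ^ p))) := by
        have : (0 : ℝ) ≤ Real.log ((2 * s : ℕ) : ℝ) := Real.log_natCast_nonneg _
        gcongr
        nlinarith
    _ = (4 * E + 3 * K' + 3 * (K * cP p)) * (G * (cn n * n * Real.log s ^ p)) := by ring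
    _ ≤ (5 * E + 4 * K' + 4 * (K * cP p)) * (G * (cn n * n * Real.log s ^ p)) := by
        have h16 : (0 : ℝ) ≤ G * (cn n * n * Real.log s ^ p) := by positivity
        refine mul_le_mul_of_nonneg_right ?_ h16
        have h18 : 0 ≤ K * cP p := by positivity
        linarith
    _ = _ := by ring

end Pool.Agent.U126.NC
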